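import Pool.Agent.Work.MP_44129c_co.M3.MixR

/-!
# MP_44129c_co/M3, Mix (size M-L): a large class modulo `K` has one colour

PROOF.  `A' = ((AK c w).erase x0).erase x1`, `|AK| ≥ m - s`, `|A'| = |AK| - 2`.  A root is a `y ∈ BK` with `M + 1 ≤ |PK y| + s`; `mix_r` gives a subgroup `H ⊇ K` with `c w y ∉ H` of type 2 (index 2), 3 (index 3, `m = 3 s`) or 4 (order 4, `m = 16`, `s = 5`).  Subgroups with the same index (order) are equal (`sub_index_unique`, `sub_unique`).
(T3) No root has type 3.  Let `y` be one, `H = Q` (index 3, `|H| = s`).  `mx_core` (`3 |H| = m`): `E`, `|E| ≤ s - 2`; `X' = A' \ E` has at least `(m - s - 2) - (s - 2) = s` elements, for each `x ∈ X'` there is `z ∈ BK` with `c w z ∉ H`, `c x z ∉ H` (`s + 1 ≤ s + #…`).  `BK \ H ⊆ {y} ∪ (Y \ H)`.  If `Y \ H = ∅`: `z = y`, so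
     `c x y ∉ H` for all `x ∈ X'`; these `x` are in `PK y` (`K ⊆ H`), at least `s ≥ 2` elements of `PK` outside `H`: contradiction to the type.  So `Y \ H = {b1}` and all `x ∈ PK y` have `c y x ∈ H`; then `z ≠ y` for `x ∈ X'` (`c x y ∉ H` would give `x ∈ PK y`), so `z = b1`: `c x b1 ∉ H` for all `x ∈ X'`.
     So `X' ⊆ PK b1`, `|PK b1| ≥ s ≥ M + 1 - s` (`2 M = 3 s`, `s` even): `b1` is a root.  Its type: not 3 (at least `s ≥ 2` elements of `PK b1` outside `Q`), not 4 (`16 ≠ 3 s`).  Type 2: `H2` (index 2, `⊇ K`), all `c w b`, `b ∈ BK.erase b1`, in `H2`.  Let `L = Q ⊓ H2`.  All `z ≠ w, y, b1` have `c w z ∈ L` (`z ∈ AK`: `K ⊆ L`).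
     `|L|` divides `|Q| = s` and `|H2| = 3 s / 2`, so `|L| ≠ s` (`s ∤ 3 s / 2`), `2 |L| ≤ s`.  `coset_deg` (`L`, `r = 0`): `(m + s - 1 - 2) + 2 ≤ m + |L|`, so `s - 1 ≤ s / 2`: false.
(T4) No root has type 4.  Let `y` be one (`m = 16`, `s = 5`, `M = 8`), `H = P4`.  `mx_core` (`12 ≤ 16`): `E`, `|E| ≤ 2`; `X' = A' \ E` has at least `(11 - 2) - 2 = 7` elements; for `x ∈ X'`: `#{z ∈ BK : c w z ∉ H, c x z ∉ H} ≥ 2`.  `BK \ H = {y, b1, b2}` (`Y \ H` has two elements), `c x y ∈ H` for all `x ∈ A'` (`x ∈ PK y`: the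
     type; otherwise `c y x + c y x = 0`, `K ⊆ H`).  So `c x b1 ∉ H` and `c x b2 ∉ H` for all `x ∈ X'`: `b1`, `b2` are roots (`7 ≥ M + 1 - s = 4`), not of type 4, not of type 3 (`16 ≠ 15`), so both of type 2, with the same `H2`: `c w b1 ∉ H2`, but `c w b1 ∈ H2` by the type of `b2`.  Contradiction.
(T2) If `mx_two` gives two roots `y1 ≠ y2`, both are of type 2, with the same `H2`: `c w y1 ∉ H2`, but `c w y1 ∈ H2` by the type of `y2`.  Contradiction.
(T2') Otherwise `(s, m) = (4, 12)`, `|BK| = 7`, every `x ∈ A'` has exactly three `z ∈ BK` with `c x z ∉ K`, and there is a root `y`, of type 2 (`H2`), with an `x ∈ PK y`, `c y x ∈ H2`.  `mm_star`: double stars with the centre edge `w x`, the leaves `BK.erase y \ T`, three elements of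
     `A' \ x` and one of `x0`, `x1` at `w`, and `T ∪ {y}` at `x`, where `T ⊆ R = {b ∈ BK.erase y : c x b ∈ K}`: `1 + (6 - |T|) + 3 + 1 + (|T| + 1) = 12` edges; so `2 (c x y + ∑_{BK.erase y \ T} c w b) ≠ 0`.  `|R| = 4`; take `r1, r2 ∈ R`: `c w r1`, `c w r2` are even and not in `K`, `Z = c x y + ∑ c w b` is even:
     one of `2 Z`, `2 (Z - c w r1)`, `2 (Z - c w r2)`, `2 (Z - c w r1 - c w r2)` is `0` (the elements `2 c w r1`, `2 c w r2`, `2 Z` are multiples of `4`).  Contradiction.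
-/

set_option autoImplicit false

namespace ZS44129
namespace M3

open Finset E W

variable {V : Type} [Fintype V] [DecidableEq V] {m : ℕ} {c : V → V → ZMod m} {s M : ℕ} {w x0 x1 : V}

private theorem mm_A [NeZero m] (h : MX c s M w x0 x1) :
    m ≤ (((AK c w).erase x0).erase x1).card + s + 2 := by
  have h1 := h.big
  have h2 := Finset.pred_card_le_card_erase (s := AK c w) (a := x0)
  have h3 := Finset.pred_card_le_card_erase (s := (AK c w).erase x0) (a := x1)
  omega

private theorem mm_memA {x : V} (hx : x ∈ ((AK c w).erase x0).erase x1) :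
    x ∈ AK c w ∧ x ≠ x0 ∧ x ≠ x1 := by
  rw [Finset.mem_erase, Finset.mem_erase] at hx
  exact ⟨hx.2.2, hx.2.1, hx.1⟩

/-- no root of type 3 -/
private theorem mm_T3 [NeZero m] (h : MX c s M w x0 x1) {y : V} (hy : y ∈ BK c w)
    (Q : AddSubgroup (ZMod m)) (hK : ∀ a : ZMod m, a + a = 0 → a ∈ Q) (hyQ : c w y ∉ Q)
    (hm : m = 3 * s) (hQ : Q.index = 3)
    (hc : (outK (c y) (PK c w x0 x1 y) Q).card + (outK (c w) ((BK c w).erase y) Q).card ≤ 1) :
    False := by
  classical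
  have hs5 := h.s5
  have hM := h.hM
  have hQc : Nat.card Q = s := by
    have h1 := AddSubgroup.card_mul_index Q
    rw [hQ, Nat.card_zmod] at h1
    omega
  obtain ⟨E, hE, hEc, hcore⟩ := mx_core h Q hK (by omega)
  obtain ⟨A', hA'⟩ : ∃ A', A' = ((AK c w).erase x0).erase x1 := ⟨_, rfl⟩
  rw [← hA'] at hE hcore
  have hAc : m ≤ A'.card + s + 2 := by rw [hA']; exact mm_A h
  obtain ⟨X, hX⟩ : ∃ X, X = A' \ E := ⟨_, rfl⟩
  have hXc : s ≤ X.card := by
    have h1 := Finset.le_card_sdiff E A'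
    rw [← hX] at h1
    omega
  have hXm : ∀ x ∈ X, (x ∈ AK c w ∧ x ≠ x0 ∧ x ≠ x1) ∧
      ∃ z ∈ BK c w, c w z ∉ Q ∧ c x z ∉ Q := by
    intro x hx
    rw [hX, Finset.mem_sdiff] at hx
    refine ⟨mm_memA (hA' ▸ hx.1), ?_⟩
    have h1 := hcore x hx.1 hx.2
    have h2 : 0 < (outK (fun z => c x z) (outK (c w) (BK c w) Q) Q).card := by omega
    obtain ⟨z, hz⟩ := Finset.card_pos.1 h2
    obtain ⟨h3, h4⟩ := mem_outK.1 hz
    obtain ⟨h5, h6⟩ := mem_outK.1 h3
    exact ⟨z, h5, h6, h4⟩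
  have hPKof : ∀ x ∈ X, ∀ b, c x b ∉ Q → x ∈ PK c w x0 x1 b ∧ c b x ∉ Q := by
    intro x hx b hb
    obtain ⟨⟨h1, h2, h3⟩, -⟩ := hXm x hx
    have h4 : c b x ∉ Q := by rw [h.sym b x]; exact hb
    exact ⟨mem_PK.2 ⟨h1, h2, h3, fun h5 => h4 (hK _ h5)⟩, h4⟩
  have hXne : X.Nonempty := by rw [← Finset.card_pos]; omega
  rcases Nat.eq_zero_or_pos (outK (c w) ((BK c w).erase y) Q).card with hY0 | hY0
  · -- all z are y
    have hYe := Finset.card_eq_zero.1 hY0
    have hsub : X ⊆ outK (c y) (PK c w x0 x1 y) Q := by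
      intro x hx
      obtain ⟨-, z, hz, hz1, hz2⟩ := hXm x hx
      have hzy : z = y := by
        by_contra hne
        have h1 : z ∈ outK (c w) ((BK c w).erase y) Q :=
          mem_outK.2 ⟨Finset.mem_erase.2 ⟨hne, hz⟩, hz1⟩
        rw [hYe] at h1
        exact Finset.notMem_empty _ h1
      rw [hzy] at hz2
      exact mem_outK.2 (hPKof x hx y hz2)
    have h1 := Finset.card_le_card hsub
    omega
  · have hP0 : (outK (c y) (PK c w x0 x1 y) Q).card = 0 := by omega
    have hPe := Finset.card_eq_zero.1 hP0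
    obtain ⟨b1, hb1⟩ := Finset.card_eq_one.1
      (show (outK (c w) ((BK c w).erase y) Q).card = 1 by omega)
    have hb1m : b1 ∈ outK (c w) ((BK c w).erase y) Q := by
      rw [hb1]; exact Finset.mem_singleton_self b1
    obtain ⟨hb2, hb3⟩ := mem_outK.1 hb1m
    obtain ⟨hb1y, hb1B⟩ := Finset.mem_erase.1 hb2
    have hXb : ∀ x ∈ X, c x b1 ∉ Q := by
      intro x hx
      obtain ⟨-, z, hz, hz1, hz2⟩ := hXm x hx
      have hzy : z ≠ y := by
        intro he
        rw [he] at hz2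
        have h1 := mem_outK.2 (hPKof x hx y hz2)
        rw [hPe] at h1
        exact Finset.notMem_empty _ h1
      have h1 : z ∈ outK (c w) ((BK c w).erase y) Q :=
        mem_outK.2 ⟨Finset.mem_erase.2 ⟨hzy, hz⟩, hz1⟩
      rw [hb1, Finset.mem_singleton] at h1
      rw [← h1]
      exact hz2
    have hXsub : X ⊆ outK (c b1) (PK c w x0 x1 b1) Q := fun x hx =>
      mem_outK.2 (hPKof x hx b1 (hXb x hx))
    have hXo := Finset.card_le_card hXsub
    have hXP := Finset.card_le_card (outK_sub (c b1) (PK c w x0 x1 b1) Q)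
    obtain ⟨H2, hH2K, hH2y, hty⟩ := mix_r h hb1B (by omega)
    rcases hty with ⟨t1, -, t2⟩ | ⟨-, t1, t2⟩ | ⟨t1, t2, -⟩
    · -- type 2
      obtain ⟨L, hL⟩ : ∃ L, L = Q ⊓ H2 := ⟨_, rfl⟩
      have hLmem : ∀ z, z ≠ w → z ≠ y → z ≠ b1 → c w z ∈ L := by
        intro z hzw hzy hzb
        rw [hL, AddSubgroup.mem_inf]
        by_cases hz : c w z + c w z = 0
        · exact ⟨hK _ hz, hH2K _ hz⟩
        · have hzB : z ∈ BK c w := mem_BK.2 ⟨hzw, hz⟩
          refine ⟨?_, t2 z (Finset.mem_erase.2 ⟨hzb, hzB⟩)⟩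
          by_contra hzQ
          have h1 : z ∈ outK (c w) ((BK c w).erase y) Q :=
            mem_outK.2 ⟨Finset.mem_erase.2 ⟨hzy, hzB⟩, hzQ⟩
          rw [hb1, Finset.mem_singleton] at h1
          exact hzb h1
      have hH2c : 2 * Nat.card H2 = 3 * s := by
        have h1 := AddSubgroup.card_mul_index H2
        rw [t1, Nat.card_zmod] at h1
        omega
      have hLQ : Nat.card L ∣ s := by
        rw [← hQc, hL]; exact AddSubgroup.card_dvd_of_le inf_le_left
      have hLH : Nat.card L ∣ Nat.card H2 := by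
        rw [hL]; exact AddSubgroup.card_dvd_of_le inf_le_right
      have hL2 : 2 * Nat.card L ≤ s := by
        obtain ⟨k, hk⟩ := hLQ
        have hLpos : 0 < Nat.card L := Nat.card_pos
        rcases Nat.lt_or_ge k 2 with hk2 | hk2
        · exfalso
          interval_cases k
          · omega
          · obtain ⟨j, hj⟩ := hLH
            have h1 : Nat.card L = s := by omega
            rw [h1] at hj
            rw [hj] at hH2c
            have h2 : s * (2 * j) = s * 3 := by linarith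
            have h3 := Nat.eq_of_mul_eq_mul_left (by omega) h2
            omega
        · calc 2 * Nat.card L = Nat.card L * 2 := mul_comm _ _
            _ ≤ Nat.card L * k := Nat.mul_le_mul_left _ hk2
            _ = s := hk.symm
      have hcd := G.coset_deg c h.zsf w L (by omega) 0
      have hle : (((univ.erase w).erase y).erase b1).card ≤
          ((univ.erase w).filter (fun x => c w x - 0 ∈ L)).card := by
        refine Finset.card_le_card fun z hz => ?_
        rw [Finset.mem_erase, Finset.mem_erase, Finset.mem_erase] at hz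
        rw [Finset.mem_filter, Finset.mem_erase, sub_zero]
        exact ⟨⟨hz.2.2.1, Finset.mem_univ _⟩, hLmem z hz.2.2.1 hz.2.1 hz.1⟩
      have hle2 : (((univ.erase w).erase y).erase b1).card + 2 ≤ m + Nat.card L := by
        refine le_trans (Nat.add_le_add_right (le_trans hle ?_) 2) hcd
        refine Finset.card_le_card fun z hz => ?_
        rw [Finset.mem_filter] at hz
        exact Finset.mem_filter.2 hz
      have e1 := Finset.pred_card_le_card_erase (s := (univ : Finset V)) (a := w)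
      have e2 := Finset.pred_card_le_card_erase (s := (univ : Finset V).erase w) (a := y)
      have e3 := Finset.pred_card_le_card_erase (s := ((univ : Finset V).erase w).erase y) (a := b1)
      rw [Finset.card_univ, h.card] at e1
      omega
    · -- type 3
      have h1 : H2 = Q := sub_index_unique H2 Q (by rw [t1, hQ])
      rw [h1] at t2
      omega
    · omega

/-- no root of type 4 -/
private theorem mm_T4 [NeZero m] (h : MX c s M w x0 x1) {y : V} (hy : y ∈ BK c w)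
    (H : AddSubgroup (ZMod m)) (hK : ∀ a : ZMod m, a + a = 0 → a ∈ H)
    (hm : m = 16) (hs : s = 5) (hH : Nat.card H = 4) (hP : ∀ x ∈ PK c w x0 x1 y, c y x ∈ H)
    (hc : (outK (c w) ((BK c w).erase y) H).card = 2) : False := by
  classical
  have hM := h.hM
  obtain ⟨E, hE, hEc, hcore⟩ := mx_core h H hK (by omega)
  obtain ⟨A', hA'⟩ : ∃ A', A' = ((AK c w).erase x0).erase x1 := ⟨_, rfl⟩
  rw [← hA'] at hE hcore
  have hAc : m ≤ A'.card + s + 2 := by rw [hA']; exact mm_A h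
  obtain ⟨X, hX⟩ : ∃ X, X = A' \ E := ⟨_, rfl⟩
  have hXc : 7 ≤ X.card := by
    have h1 := Finset.le_card_sdiff E A'
    rw [← hX] at h1
    omega
  have hXne : X.Nonempty := by rw [← Finset.card_pos]; omega
  obtain ⟨b1, b2, hb12, hbe⟩ := Finset.card_eq_two.1 hc
  have hXm : ∀ x ∈ X, ∀ b, b = b1 ∨ b = b2 → x ∈ PK c w x0 x1 b ∧ c b x ∉ H := by
    intro x hx
    rw [hX, Finset.mem_sdiff] at hx
    obtain ⟨h1, h2, h3⟩ := mm_memA (hA' ▸ hx.1)
    have h4 := hcore x hx.1 hx.2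
    have h5 : c x y ∈ H := by
      rw [h.sym x y]
      by_cases h6 : c y x + c y x = 0
      · exact hK _ h6
      · exact hP x (mem_PK.2 ⟨h1, h2, h3, h6⟩)
    have h6 : outK (fun z => c x z) (outK (c w) (BK c w) H) H ⊆ {b1, b2} := by
      intro z hz
      obtain ⟨h7, h8⟩ := mem_outK.1 hz
      obtain ⟨h9, h10⟩ := mem_outK.1 h7
      have hzy : z ≠ y := by
        intro he
        apply h8
        rw [he]
        exact h5
      rw [← hbe]
      exact mem_outK.2 ⟨Finset.mem_erase.2 ⟨hzy, h9⟩, h10⟩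
    have h7 : outK (fun z => c x z) (outK (c w) (BK c w) H) H = {b1, b2} := by
      apply Finset.eq_of_subset_of_card_le h6
      rw [Finset.card_pair hb12]
      omega
    intro b hb
    have h8 : b ∈ outK (fun z => c x z) (outK (c w) (BK c w) H) H := by
      rw [h7, Finset.mem_insert, Finset.mem_singleton]
      exact hb
    have h9 : c x b ∉ H := (mem_outK.1 h8).2
    have h10 : c b x ∉ H := by rw [h.sym b x]; exact h9
    exact ⟨mem_PK.2 ⟨h1, h2, h3, fun h11 => h10 (hK _ h11)⟩, h10⟩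
  have hmb1 : b1 ∈ outK (c w) ((BK c w).erase y) H := by rw [hbe]; simp
  have hmb2 : b2 ∈ outK (c w) ((BK c w).erase y) H := by rw [hbe]; simp
  have hB1 : b1 ∈ BK c w := (Finset.mem_erase.1 (mem_outK.1 hmb1).1).2
  have hB2 : b2 ∈ BK c w := (Finset.mem_erase.1 (mem_outK.1 hmb2).1).2
  have key : ∀ b, b = b1 ∨ b = b2 → b ∈ BK c w → ∃ H2 : AddSubgroup (ZMod m), H2.index = 2 ∧
      c w b ∉ H2 ∧ ∀ b' ∈ (BK c w).erase b, c w b' ∈ H2 := by
    intro b hb hbB
    have h1 : X.card ≤ (PK c w x0 x1 b).card :=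
      Finset.card_le_card fun x hx => (hXm x hx b hb).1
    obtain ⟨H2, hH2K, hH2y, hty⟩ := mix_r h hbB (by omega)
    rcases hty with ⟨t1, -, t2⟩ | ⟨t0, -, -⟩ | ⟨-, -, t1, t2, -⟩
    · exact ⟨H2, t1, hH2y, t2⟩
    · omega
    · exfalso
      have h2 : H2 = H := sub_unique H2 H (by rw [t1, hH])
      obtain ⟨x, hx⟩ := hXne
      obtain ⟨h3, h4⟩ := hXm x hx b hb
      apply h4
      rw [← h2]
      exact t2 x h3
  obtain ⟨G1, i1, n1, a1⟩ := key b1 (Or.inl rfl) hB1
  obtain ⟨G2, i2, n2, a2⟩ := key b2 (Or.inr rfl) hB2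
  have hG : G1 = G2 := sub_index_unique G1 G2 (by rw [i1, i2])
  apply n1
  rw [hG]
  exact a2 b1 (Finset.mem_erase.2 ⟨hb12, hB1⟩)

/-- `(s, m) = (4, 12)`: every element of the form `2 z` can be changed to `0` by two elements of order 3. -/
private theorem mm_arith (z a b : ZMod 12) (ha : (a + a) + (a + a) ≠ 0)
    (hb : (b + b) + (b + b) ≠ 0) :
    (z + z) + (z + z) = 0 ∨ (z + z - (a + a)) + (z + z - (a + a)) = 0 ∨
      (z + z - (b + b)) + (z + z - (b + b)) = 0 ∨
      (z + z - (a + a) - (b + b)) + (z + z - (a + a) - (b + b)) = 0 := by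
  revert z a b
  decide

/-- the double stars with centre edge `w x`, `x ∈ A'` for `(s, m) = (4, 12)` -/
private theorem mm_star [NeZero m] (h : MX c s M w x0 x1) (hm : m = 12)
    (hBc : (BK c w).card = 7) {y : V} (hy : y ∈ BK c w) {x : V}
    (hx : x ∈ ((AK c w).erase x0).erase x1) (A1 : Finset V)
    (hA1 : A1 ⊆ (((AK c w).erase x0).erase x1).erase x) (hA1c : A1.card = 3) (T : Finset V)
    (hT : T ⊆ (BK c w).erase y) (hTK : ∀ b ∈ T, c x b + c x b = 0) :
    (c x y + ∑ b ∈ (BK c w).erase y \ T, c w b) +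
      (c x y + ∑ b ∈ (BK c w).erase y \ T, c w b) ≠ 0 := by
  intro h0
  obtain ⟨hxA, hxx0, hxx1⟩ := mm_memA hx
  have hxw : x ≠ w := (mem_AK.1 hxA).1
  have hdisj : ∀ z, z ∈ AK c w → z ∈ BK c w → False := fun z h1 h2 =>
    (mem_BK.1 h2).2 (mem_AK.1 h1).2
  have hA1' : ∀ z ∈ A1, z ∈ AK c w ∧ z ≠ x0 ∧ z ≠ x1 ∧ z ≠ x := by
    intro z hz
    obtain ⟨h1, h2⟩ := Finset.mem_erase.1 (hA1 hz)
    obtain ⟨h3, h4, h5⟩ := mm_memA h2
    exact ⟨h3, h4, h5, h1⟩
  have hx0A : x0 ∈ AK c w := mem_AK.2 ⟨h.x0w, by rw [h.c0, add_zero]⟩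
  have hx1A : x1 ∈ AK c w := mem_AK.2 ⟨h.x1w, by rw [h.c1]; exact M_add h.hM⟩
  have hYT : ∀ z ∈ (BK c w).erase y \ T, z ∈ BK c w ∧ z ≠ y ∧ z ∉ T := by
    intro z hz
    obtain ⟨h1, h2⟩ := Finset.mem_sdiff.1 hz
    exact ⟨Finset.mem_of_mem_erase h1, Finset.ne_of_mem_erase h1, h2⟩
  have hd1 : Disjoint ((BK c w).erase y \ T) A1 := by
    rw [Finset.disjoint_left]
    intro z h1 h2
    exact hdisj z (hA1' z h2).1 (hYT z h1).1
  have hyT : y ∉ T := fun h1 => (Finset.mem_erase.1 (hT h1)).1 rfl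
  have hyTB : ∀ z ∈ insert y T, z ∈ BK c w := by
    intro z hz
    rcases Finset.mem_insert.1 hz with h1 | h1
    · rw [h1]; exact hy
    · exact Finset.mem_of_mem_erase (hT h1)
  have k4 := Finset.card_erase_add_one hy
  have k5 := Finset.card_sdiff_add_card_eq_card hT
  have key : ∀ x' ∈ AK c w, (x' = x0 ∨ x' = x1) →
      c w x + (c w x' + (∑ b ∈ (BK c w).erase y \ T, c w b + ∑ z ∈ A1, c w z)) +
        ∑ z ∈ insert y T, c x z ≠ 0 := by
    intro x' hx' hx''
    have hx'1 : x' ∉ A1 := by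
      intro h1
      have h2 := hA1' x' h1
      rcases hx'' with h3 | h3
      · exact h2.2.1 h3
      · exact h2.2.2.1 h3
    have hx'3 : x' ∉ ((BK c w).erase y \ T) ∪ A1 := by
      rw [Finset.mem_union]
      rintro (h1 | h1)
      · exact hdisj x' hx' (hYT x' h1).1
      · exact hx'1 h1
    have hx'x : x' ≠ x := by
      rintro rfl
      rcases hx'' with h3 | h3
      · exact hxx0 h3
      · exact hxx1 h3
    have h1 := h.zsf w x hxw.symm (insert x' (((BK c w).erase y \ T) ∪ A1)) (insert y T) (by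
        rw [Finset.disjoint_left]
        intro z hz hzT
        have hzB := hyTB z hzT
        rcases Finset.mem_insert.1 hz with h2 | h2
        · rw [h2] at hzB
          exact hdisj x' hx' hzB
        · rcases Finset.mem_union.1 h2 with h3 | h3
          · obtain ⟨h4, h5, h6⟩ := hYT z h3
            rcases Finset.mem_insert.1 hzT with h7 | h7
            · exact h5 h7
            · exact h6 h7
          · exact hdisj z (hA1' z h3).1 hzB) (by
        intro hz
        rcases Finset.mem_insert.1 hz with h2 | h2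
        · exact (mem_AK.1 hx').1 h2.symm
        · rcases Finset.mem_union.1 h2 with h3 | h3
          · exact (mem_BK.1 (hYT w h3).1).1 rfl
          · exact (mem_AK.1 (hA1' w h3).1).1 rfl) (by
        intro hz
        rcases Finset.mem_insert.1 hz with h2 | h2
        · exact hx'x h2.symm
        · rcases Finset.mem_union.1 h2 with h3 | h3
          · exact hdisj x hxA (hYT x h3).1
          · exact (hA1' x h3).2.2.2 rfl) (by
        intro hz
        exact (mem_BK.1 (hyTB w hz)).1 rfl) (by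
        intro hz
        exact hdisj x hxA (hyTB x hz)) (by
        rw [Finset.card_insert_of_notMem hx'3, Finset.card_union_of_disjoint hd1, hA1c,
          Finset.card_insert_of_notMem hyT]
        omega)
    rw [Finset.sum_insert hx'3, Finset.sum_union hd1] at h1
    exact h1
  have hT1 : ∑ z ∈ A1, c w z + ∑ z ∈ A1, c w z = 0 := by
    rw [← Finset.sum_add_distrib]
    exact Finset.sum_eq_zero fun z hz => (mem_AK.1 (hA1' z hz).1).2
  have hT2 : ∑ z ∈ T, c x z + ∑ z ∈ T, c x z = 0 := by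
    rw [← Finset.sum_add_distrib]
    exact Finset.sum_eq_zero fun z hz => hTK z hz
  have hT3 := (mem_AK.1 hxA).2
  have hTT : (c w x + (∑ b ∈ (BK c w).erase y \ T, c w b + ∑ z ∈ A1, c w z) +
        ∑ z ∈ insert y T, c x z) + (c w x + (∑ b ∈ (BK c w).erase y \ T, c w b +
        ∑ z ∈ A1, c w z) + ∑ z ∈ insert y T, c x z) = 0 := by
    rw [Finset.sum_insert hyT]
    have e1 : (c w x + (∑ b ∈ (BK c w).erase y \ T, c w b + ∑ z ∈ A1, c w z) +
        (c x y + ∑ z ∈ T, c x z)) + (c w x + (∑ b ∈ (BK c w).erase y \ T, c w b +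
        ∑ z ∈ A1, c w z) + (c x y + ∑ z ∈ T, c x z)) =
        (c w x + c w x) + (∑ z ∈ A1, c w z + ∑ z ∈ A1, c w z) +
        (∑ z ∈ T, c x z + ∑ z ∈ T, c x z) + ((c x y + ∑ b ∈ (BK c w).erase y \ T, c w b) +
      (c x y + ∑ b ∈ (BK c w).erase y \ T, c w b)) := by abel
    rw [e1, hT1, hT2, hT3, h0]
    simp
  rcases two_tor h.hM hTT with h1 | h1
  · refine key x0 hx0A (Or.inl rfl) ?_
    rw [h.c0, zero_add, h1]
  · refine key x1 hx1A (Or.inr rfl) ?_
    rw [h.c1]
    have e1 : c w x + ((M : ZMod m) + (∑ b ∈ (BK c w).erase y \ T, c w b + ∑ z ∈ A1, c w z)) +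
        ∑ z ∈ insert y T, c x z = (c w x + (∑ b ∈ (BK c w).erase y \ T, c w b +
        ∑ z ∈ A1, c w z) + ∑ z ∈ insert y T, c x z) + (M : ZMod m) := by abel
    rw [e1, h1]
    exact M_add h.hM

/-- `(s, m) = (4, 12)`: no root of type 2 when every `x ∈ A'` has three colours outside `K` -/
private theorem mm_four [NeZero m] (h : MX c s M w x0 x1) (hs : s = 4) (hm : m = 12)
    (hBc : (BK c w).card = 7) (h3 : ∀ x ∈ ((AK c w).erase x0).erase x1,
      ((BK c w).filter (fun z => c x z + c x z ≠ 0)).card = 3) {y : V} (hy : y ∈ BK c w)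
    (H2 : AddSubgroup (ZMod m)) (hidx : H2.index = 2) (hxe : ∃ x ∈ PK c w x0 x1 y, c y x ∈ H2)
    (hb : ∀ b ∈ (BK c w).erase y, c w b ∈ H2) : False := by
  classical
  obtain ⟨x, hxP, hxH⟩ := hxe
  obtain ⟨hxA, hx0, hx1, hxK⟩ := mem_PK.1 hxP
  have hxA' : x ∈ ((AK c w).erase x0).erase x1 :=
    Finset.mem_erase.2 ⟨hx1, Finset.mem_erase.2 ⟨hx0, hxA⟩⟩
  have hAc := mm_A h
  have k1 := Finset.card_erase_add_one hxA'
  obtain ⟨A1, hA1, hA1c⟩ := Finset.exists_subset_card_eq
    (s := (((AK c w).erase x0).erase x1).erase x) (n := 3) (by omega)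
  have hxy : c x y + c x y ≠ 0 := by rw [h.sym x y]; exact hxK
  have k2 := Finset.card_erase_add_one hy
  have k3 : (((BK c w).erase y).filter (fun z => c x z + c x z ≠ 0)).card + 1 = 3 := by
    rw [← h3 x hxA', Finset.filter_erase]
    exact Finset.card_erase_add_one (Finset.mem_filter.2 ⟨hy, hxy⟩)
  have k4 : (((BK c w).erase y).filter (fun z => c x z + c x z = 0)).card +
      (((BK c w).erase y).filter (fun z => c x z + c x z ≠ 0)).card = ((BK c w).erase y).card :=
    Finset.card_filter_add_card_filter_not _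
  obtain ⟨r1, hr1, r2, hr2, hr12⟩ := Finset.one_lt_card.1
    (show 1 < (((BK c w).erase y).filter (fun z => c x z + c x z = 0)).card by omega)
  obtain ⟨hr1Y, hr1K⟩ := Finset.mem_filter.1 hr1
  obtain ⟨hr2Y, hr2K⟩ := Finset.mem_filter.1 hr2
  have hst := fun T hT hTK => mm_star h hm hBc hy hxA' A1 hA1 hA1c T hT hTK
  obtain ⟨Z, hZ⟩ : ∃ Z, Z = c x y + ∑ b ∈ (BK c w).erase y, c w b := ⟨_, rfl⟩
  have hsd : ∀ T ⊆ (BK c w).erase y, c x y + ∑ b ∈ (BK c w).erase y \ T, c w b =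
      Z - ∑ b ∈ T, c w b := by
    intro T hT
    rw [hZ, ← Finset.sum_sdiff (f := fun b => c w b) hT]
    abel
  have hZH : Z ∈ H2 := by
    rw [hZ, h.sym x y]
    exact add_mem hxH (sum_mem hb)
  have hr1H := hb r1 hr1Y
  have hr2H := hb r2 hr2Y
  rw [even_idx h.hM H2 hidx] at hZH hr1H hr2H
  obtain ⟨z, hz⟩ := hZH
  obtain ⟨a, ha⟩ := hr1H
  obtain ⟨b, hb'⟩ := hr2H
  have hr1B := (mem_BK.1 (Finset.mem_of_mem_erase hr1Y)).2
  have hr2B := (mem_BK.1 (Finset.mem_of_mem_erase hr2Y)).2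
  rw [ha] at hr1B
  rw [hb'] at hr2B
  have t0 := hst ∅ (Finset.empty_subset _) (fun b hb => absurd hb (Finset.notMem_empty b))
  have t1 := hst {r1} (by rw [Finset.singleton_subset_iff]; exact hr1Y) (fun b hb => by
    rw [Finset.mem_singleton.1 hb]; exact hr1K)
  have t2 := hst {r2} (by rw [Finset.singleton_subset_iff]; exact hr2Y) (fun b hb => by
    rw [Finset.mem_singleton.1 hb]; exact hr2K)
  have hpair : ({r1, r2} : Finset V) ⊆ (BK c w).erase y := by
    intro b hb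
    rcases Finset.mem_insert.1 hb with h1 | h1
    · rw [h1]; exact hr1Y
    · rw [Finset.mem_singleton.1 h1]; exact hr2Y
  have t3 := hst {r1, r2} hpair (fun b hb => by
    rcases Finset.mem_insert.1 hb with h1 | h1
    · rw [h1]; exact hr1K
    · rw [Finset.mem_singleton.1 h1]; exact hr2K)
  rw [hsd _ (Finset.empty_subset _), Finset.sum_empty, sub_zero, hz] at t0
  rw [hsd _ (by rw [Finset.singleton_subset_iff]; exact hr1Y), Finset.sum_singleton, hz, ha] at t1
  rw [hsd _ (by rw [Finset.singleton_subset_iff]; exact hr2Y), Finset.sum_singleton, hz, hb'] at t2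
  rw [hsd _ hpair, Finset.sum_pair hr12, hz, ha, hb', ← sub_sub] at t3
  clear hZ hsd hst hz ha hb' hidx hxH hxy hxK h3 h hb hr1K hr2K
  subst hm
  rcases mm_arith z a b hr1B hr2B with h1 | h1 | h1 | h1
  · exact t0 h1
  · exact t1 h1
  · exact t2 h1
  · exact t3 h1

theorem mix_false [NeZero m] (h : MX c s M w x0 x1) : False := by
  have key0 : ∀ y, y ∈ BK c w → M + 1 ≤ (PK c w x0 x1 y).card + s →
      ∃ H2 : AddSubgroup (ZMod m), H2.index = 2 ∧ c w y ∉ H2 ∧
        (∃ x ∈ PK c w x0 x1 y, c y x ∈ H2) ∧ ∀ b' ∈ (BK c w).erase y, c w b' ∈ H2 := by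
    intro y hy hP
    obtain ⟨H2, hH2K, hH2y, hty⟩ := mix_r h hy hP
    rcases hty with ⟨t1, t2⟩ | ⟨t0, t1, t2⟩ | ⟨t0, t1, t2, t3, t4⟩
    · exact ⟨H2, t1, hH2y, t2⟩
    · exact (mm_T3 h hy H2 hH2K hH2y t0 t1 t2).elim
    · exact (mm_T4 h hy H2 hH2K t0 t1 t2 t3 t4).elim
  rcases mx_two h with ⟨y1, hy1, y2, hy2, hne, h1, h2⟩ | ⟨g1, g2, g3, g4, y, hy, hyc⟩
  · obtain ⟨G1, i1, n1, -, a1⟩ := key0 y1 hy1 h1
    obtain ⟨G2, i2, n2, -, a2⟩ := key0 y2 hy2 h2
    have hG : G1 = G2 := sub_index_unique G1 G2 (by rw [i1, i2])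
    apply n1
    rw [hG]
    exact a2 y1 (Finset.mem_erase.2 ⟨hne, hy1⟩)
  · obtain ⟨G1, i1, n1, e1, a1⟩ := key0 y hy hyc
    exact mm_four h g1 g2 g3 g4 hy G1 i1 e1 a1

end M3
end ZS44129
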