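import Pool.Agent.Work.MP_44129c_co.M3.XlA
import Pool.Agent.Work.MP_44129c_co.M3.PPM
import Pool.Agent.Work.MP_44129c_co.M3.Mix

/-!
# MP_44129c_co/M3, Xl (size M-L): few `K`-edges at a vertex with an edge of colour `M`; the counts `|XK|`

`e = |BB|`, `s ≤ e ≤ 2 s - 1`, `|AA| = m + s - 1 - e`, `s + 1 ≤ M` (`ew_card`).
PROOF of `xlem`.  Suppose `|RR| + |OA| + s ≥ M + 2`.  `R' = (RR).erase y1` (`y1 ∈ RR`: `M_add`), `|R'| = |RR| - 1`.  `Q ⊆ OA` with `min (|OA|, M + 1 - s)` elements; `P = R' ∪ Q` (disjoint), `|P| ≥ M + 1 - s`; `|Q| + e + 1 ≤ M + 1 - s + 2 s ≤ m`.  `Y = BB \ RR`, `|Y| ≥ s - 1` (`b_ge'`).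
`d = dX h.hM c w x`: nonzero on `R' ∪ Y ⊆ BB` (`kb`, `pr_zero`) and on `Q` (`OA`).  `ppM` with `P`, `Y`; `hno`: for `F ⊆ P ∪ Y ⊆ Q ∪ BB.erase y1` with `|F ∩ Y| + 2 ≤ s`: `xl_nc` with `J = ∅`, `H1 = ⊤`.  It gives `H1`, `F1`, `|F1 ∩ Y| + #(Y \ H1) + 2 ≤ s`.  Let `J` = the `b ∈ BB.erase y1` with `d b ∉ H1`
(disjoint from `F1`; `J \ RR = outK d Y H1`): `pr (∑_{(BB.erase y1) \ J} c w b) ∈ H1` (all terms are in `H1`), `F1 ∩ (BB \ RR) = F1 ∩ Y`: `xl_nc` with `F = F1` gives `False`.  (Only the inequality `|F1 ∩ Y| + #(Y \ H1) + 2 ≤ s` of `ppM` is used.)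
PROOF of `b_ge`.  `b` = the cardinality.  `b ≥ s - 1` by `b_ge'`.  Suppose `b = s - 1`.  `W.c1A`: `s ≤ #{z ∈ BB : c x z ≠ 0}`, so some `y1 ∈ BB` has `c x y1 ≠ 0`, `c x y1 + c x y1 = 0`: `c x y1 = M` (`two_tor`).  `xlem`: `|RR| + |OA| + s ≤ M + 1`, `|RR| = e - (s - 1)`, so `|OA| ≤ M - e` (and `e ≤ M`).
The number of `z ≠ x` with `c x z ∉ K` is `|OA| + b` (`w` has `c x w = 0`; the others are in `AA.erase x` or in `BB`), so `|AK c x| = (m + s - 1) - |OA| - (s - 1) ≥ m - M + e = M + e`, and `M + e + s ≥ m = 2 M` because `e + s ≥ 2 s ≥ M` (`2 M ≤ 3 s + 2`).  So `MX c s M x w y1` holds (`c x w = 0`, `c x y1 = M`): `mix_false`.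
PROOF of `sum_XK`: double counting (`sym`): `∑_{y ∈ BB} |XK c w y| = ∑_{x ∈ AA} #{y ∈ BB : c x y + c x y ≠ 0} ≥ s |AA|` (see `W.sum_beta`).
-/

set_option autoImplicit false

namespace ZS44129
namespace M3

open Finset E W

variable {V : Type} [Fintype V] [DecidableEq V] {m : ℕ} {c : V → V → ZMod m} {s M : ℕ} {w : V}

private theorem xl_mem_RR {x b : V} : b ∈ RR c w x ↔ b ∈ BB c w ∧ c x b + c x b = 0 := by
  unfold RR
  rw [Finset.mem_filter]

private theorem xl_mem_OA {x b : V} : b ∈ OA c w x ↔ (b ≠ x ∧ b ∈ AA c w) ∧ c x b + c x b ≠ 0 := by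
  unfold OA
  rw [Finset.mem_filter, Finset.mem_erase]

private theorem xl_card (x : V) : (RR c w x).card +
    ((BB c w).filter (fun z => c x z + c x z ≠ 0)).card = (BB c w).card := by
  unfold RR
  exact Finset.card_filter_add_card_filter_not _

theorem xlem [NeZero m] (h : EW c s M w) {x y1 : V} (hx : x ∈ AA c w) (hy1 : y1 ∈ BB c w)
    (hc : c x y1 = (M : ZMod m)) : (RR c w x).card + (OA c w x).card + s ≤ M + 1 := by
  by_contra hcon
  obtain ⟨hA1, hA2, hA3⟩ := ew_card h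
  have hs5 := h.s5
  have he2 := h.e2
  have hmM := h.hM
  have hNM : NeZero M := ⟨by omega⟩
  have hbge := b_ge' h hx
  have hy1R : y1 ∈ RR c w x := xl_mem_RR.2 ⟨hy1, by rw [hc]; exact M_add h.hM⟩
  have hRc := Finset.card_erase_add_one hy1R
  obtain ⟨Q, hQ, hQc⟩ := Finset.exists_subset_card_eq
    (show min (OA c w x).card (M + 1 - s) ≤ (OA c w x).card from min_le_left _ _)
  have hAB : ∀ z, z ∈ AA c w → z ∈ BB c w → False := fun z h3 h4 =>
    (mem_BB'.1 h4).2 (mem_AA'.1 h3).2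
  have hQA : ∀ z ∈ Q, z ∈ AA c w := fun z hz => (xl_mem_OA.1 (hQ hz)).1.2
  have hRQ : Disjoint ((RR c w x).erase y1) Q := by
    rw [Finset.disjoint_left]
    intro z h1 h2
    exact hAB z (hQA z h2) (xl_mem_RR.1 (Finset.mem_erase.1 h1).2).1
  have hPc : ((RR c w x).erase y1 ∪ Q).card = ((RR c w x).erase y1).card + Q.card :=
    Finset.card_union_of_disjoint hRQ
  have hQm : Q.card + (BB c w).card + 1 ≤ m := by
    have h1 : Q.card ≤ M + 1 - s := hQc ▸ min_le_right _ _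
    omega
  have hPge : M + 1 ≤ ((RR c w x).erase y1 ∪ Q).card + s := by
    rcases min_choice (OA c w x).card (M + 1 - s) with h1 | h1 <;> omega
  have hYeq : BB c w \ RR c w x = (BB c w).filter (fun z => c x z + c x z ≠ 0) := by
    ext z
    rw [Finset.mem_sdiff, xl_mem_RR, Finset.mem_filter]
    constructor
    · rintro ⟨h1, h2⟩
      exact ⟨h1, fun h3 => h2 ⟨h1, h3⟩⟩
    · rintro ⟨h1, h2⟩
      exact ⟨h1, fun h3 => h2 h3.2⟩
  have hdBB : ∀ z ∈ BB c w, dX h.hM c w x z = pr h.hM (c w z) := by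
    intro z hz
    unfold dX
    rw [if_neg (mem_BB'.1 hz).2]
  have hdAA : ∀ z ∈ AA c w, dX h.hM c w x z = - pr h.hM (c x z) := by
    intro z hz
    unfold dX
    rw [if_pos (mem_AA'.1 hz).2]
  have hdBB0 : ∀ z ∈ BB c w, dX h.hM c w x z ≠ 0 := by
    intro z hz
    rw [hdBB z hz, Ne, pr_zero h.hM]
    exact h.kb z hz
  have hd : ∀ i ∈ ((RR c w x).erase y1 ∪ Q) ∪ (BB c w \ RR c w x), dX h.hM c w x i ≠ 0 := by
    intro z hz
    rcases Finset.mem_union.1 hz with h1 | h1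
    · rcases Finset.mem_union.1 h1 with h2 | h2
      · exact hdBB0 z (xl_mem_RR.1 (Finset.mem_erase.1 h2).2).1
      · rw [hdAA z (hQA z h2), neg_ne_zero, Ne, pr_zero h.hM]
        exact (xl_mem_OA.1 (hQ h2)).2
    · exact hdBB0 z (Finset.mem_sdiff.1 h1).1
  have hPYd : Disjoint ((RR c w x).erase y1 ∪ Q) (BB c w \ RR c w x) := by
    rw [Finset.disjoint_left]
    intro z h1 h2
    rcases Finset.mem_union.1 h1 with h3 | h3
    · exact (Finset.mem_sdiff.1 h2).2 (Finset.mem_erase.1 h3).2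
    · exact hAB z (hQA z h3) (Finset.mem_sdiff.1 h2).1
  have hsub : ((RR c w x).erase y1 ∪ Q) ∪ (BB c w \ RR c w x) ⊆ Q ∪ (BB c w).erase y1 := by
    intro z hz
    rcases Finset.mem_union.1 hz with h1 | h1
    · rcases Finset.mem_union.1 h1 with h2 | h2
      · have h3 := Finset.mem_erase.1 h2
        exact Finset.mem_union_right _ (Finset.mem_erase.2 ⟨h3.1, (xl_mem_RR.1 h3.2).1⟩)
      · exact Finset.mem_union_left _ h2
    · have h3 := Finset.mem_sdiff.1 h1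
      refine Finset.mem_union_right _ (Finset.mem_erase.2 ⟨?_, h3.1⟩)
      rintro rfl
      exact h3.2 hy1R
  have hno : ∀ F ⊆ ((RR c w x).erase y1 ∪ Q) ∪ (BB c w \ RR c w x),
      (F ∩ (BB c w \ RR c w x)).card + 2 ≤ s → ¬ Gen (dX h.hM c w x) F ⊥ ⊤ := by
    intro F hF hFc hG
    refine xl_nc h hx hy1 hc Q hQ hQm F (hF.trans hsub) ∅ (Finset.empty_subset _)
      (Finset.disjoint_empty_left _) ?_ ⊤ hG (AddSubgroup.mem_top _)
    rw [Finset.empty_sdiff, Finset.card_empty]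
    omega
  obtain ⟨H1, F1, g1, g2, g3, g4, g5, g6, g7⟩ := ppM (s := s) (by have := h.hM; omega) (by have := h.m1; omega)
    (by have := h.m2; omega) (by
      rcases h.h20 with h1 | h1
      · left
        omega
      · exact Or.inr h1) ((RR c w x).erase y1 ∪ Q) (BB c w \ RR c w x) hPYd (dX h.hM c w x) hd hPge
    (by rw [hYeq]; omega) hno
  refine xl_nc h hx hy1 hc Q hQ hQm F1 (g3.trans hsub) (outK (dX h.hM c w x) ((BB c w).erase y1) H1)
    (outK_sub _ _ _) ?_ ?_ H1 g5 ?_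
  · rw [Finset.disjoint_left]
    intro z h1 h2
    exact (mem_outK.1 h1).2 (g4 z h2)
  · have h1 : outK (dX h.hM c w x) ((BB c w).erase y1) H1 \ RR c w x ⊆
        outK (dX h.hM c w x) (BB c w \ RR c w x) H1 := by
      intro z hz
      obtain ⟨h2, h3⟩ := Finset.mem_sdiff.1 hz
      obtain ⟨h4, h5⟩ := mem_outK.1 h2
      exact mem_outK.2 ⟨Finset.mem_sdiff.2 ⟨(Finset.mem_erase.1 h4).2, h3⟩, h5⟩
    have h2 := Finset.card_le_card h1
    omega
  · rw [map_sum]
    refine AddSubgroup.sum_mem _ fun z hz => ?_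
    obtain ⟨h1, h2⟩ := Finset.mem_sdiff.1 hz
    rw [← hdBB z (Finset.mem_erase.1 h1).2]
    by_contra h3
    exact h2 (mem_outK.2 ⟨h1, h3⟩)

theorem b_ge [NeZero m] (h : EW c s M w) {x : V} (hx : x ∈ AA c w) :
    s ≤ ((BB c w).filter (fun z => c x z + c x z ≠ 0)).card := by
  by_contra hcon
  have hb1 := b_ge' h hx
  obtain ⟨hA1, hA2, hA3⟩ := ew_card h
  have hs5 := h.s5
  have he1 := h.e1
  have he2 := h.e2
  have hmM := h.hM
  have hm1 := h.m1
  have hm2 := h.m2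
  have hc1 := c1A h.toWS0 hx
  obtain ⟨hxw, hx0⟩ := mem_AA'.1 hx
  -- the vertex y1
  have hex : ∃ y1 ∈ BB c w, c x y1 ≠ 0 ∧ c x y1 + c x y1 = 0 := by
    by_contra hno
    push Not at hno
    have hsub : (BB c w).filter (fun z => c x z ≠ 0) ⊆
        (BB c w).filter (fun z => c x z + c x z ≠ 0) := by
      intro z hz
      obtain ⟨h1, h2⟩ := Finset.mem_filter.1 hz
      exact Finset.mem_filter.2 ⟨h1, hno z h1 h2⟩
    have h3 := Finset.card_le_card hsub
    omega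
  obtain ⟨y1, hy1, hy2, hy3⟩ := hex
  have hcM : c x y1 = (M : ZMod m) := by
    rcases two_tor h.hM hy3 with h1 | h1
    · exact absurd h1 hy2
    · exact h1
  have hxl := xlem h hx hy1 hcM
  have hRc := xl_card (c := c) (w := w) x
  -- the vertices outside K at x
  have hsub : BK c x ⊆ OA c w x ∪ (BB c w).filter (fun z => c x z + c x z ≠ 0) := by
    intro z hz
    obtain ⟨h1, h2⟩ := mem_BK.1 hz
    have hzw : z ≠ w := by
      rintro rfl
      apply h2
      rw [h.sym x z, hx0, add_zero]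
    by_cases h3 : c w z = 0
    · exact Finset.mem_union_left _ (xl_mem_OA.2 ⟨⟨h1, mem_AA'.2 ⟨hzw, h3⟩⟩, h2⟩)
    · exact Finset.mem_union_right _ (Finset.mem_filter.2 ⟨mem_BB'.2 ⟨hzw, h3⟩, h2⟩)
  have hBK := (Finset.card_le_card hsub).trans (Finset.card_union_le _ _)
  have hAB : (AK c x).card + (BK c x).card = (univ.erase x).card := by
    unfold AK BK
    exact Finset.card_filter_add_card_filter_not _
  have hun : (univ.erase x).card + 1 = m + s := by
    rw [Finset.card_erase_add_one (Finset.mem_univ x), Finset.card_univ, h.card]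
  have hMX : MX c s M x w y1 := by
    refine ⟨h.sym, h.zsf, h.card, h.hM, h.s5, h.m1, h.m2, h.h20, hxw.symm, ?_, ?_, hcM, ?_⟩
    · rintro rfl
      exact (mem_BB'.1 hy1).2 hx0
    · rw [h.sym x w]
      exact hx0
    · omega
  exact mix_false hMX

theorem sum_XK [NeZero m] (h : EW c s M w) : s * (AA c w).card ≤ ∑ y ∈ BB c w, (XK c w y).card := by
  have h1 : ∑ y ∈ BB c w, (XK c w y).card =
      ∑ x ∈ AA c w, ((BB c w).filter (fun z => c x z + c x z ≠ 0)).card := by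
    unfold XK
    simp only [Finset.card_filter]
    rw [Finset.sum_comm]
    refine Finset.sum_congr rfl fun x _ => Finset.sum_congr rfl fun y _ => ?_
    rw [h.sym y x]
  rw [h1, mul_comm, ← smul_eq_mul]
  exact Finset.card_nsmul_le_sum _ _ _ fun x hx => b_ge h hx

end M3
end ZS44129
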