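import Mathlib
import Pool.Agent.Work.MP_44129c_co.W.Root
import Pool.Agent.Work.MP_44129c_co.W.CoreA
import Pool.Agent.Work.MP_44129c_co.W.PP
import Pool.Agent.Work.MP_44129c_co.G.CDefs

/-!
# MP_44129c_co/M3, Defs (copy of M2 for `5 ≤ s` or `(s, m) = (4, 12)`): even `m`, a large class modulo `K`

`m = 2 M`, `K = {0, M}` = the subgroup of order 2: `a ∈ K ↔ a + a = 0`.  `pr hM : ZMod m →+ ZMod M` is the reduction, its kernel is `K`.
`n = |V| - 1 = m + s - 1`.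
 * `EW c s M w`: the situation of `W` (without `e3`): `AA c w` = the vertices with colour `0` at `w`, `BB c w` = the others, `e = |BB|`, `s ≤ e ≤ 2 s - 1`, and no `b ∈ BB` has `c w b ∈ K` (so `AA` is a full class modulo `K`).
   `XK c w y` = the `x ∈ AA` with `c y x ∉ K`.
 * `MX c s M w x0 x1`: a large class modulo `K` with both colours: `AK c w` = the `x ≠ w` with `c w x ∈ K`, `BK c w` = the others, `c w x0 = 0`, `c w x1 = M`, `|AK| ≥ m - s` (so `|BK| ≤ 2 s - 1`).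
   `PK c w x0 x1 y` = the `x ∈ AK`, `x ≠ x0, x1`, with `c y x ∉ K`.
 * `PT c s w y H`: the possible types of a subgroup `H` of a problematic root.
-/

set_option autoImplicit false

namespace ZS44129
namespace M3

open Finset E W

variable {V : Type} [Fintype V] [DecidableEq V] {m : ℕ}

/-- reduction modulo `M` for `m = 2 M`. -/
def pr {M : ℕ} (hM : m = 2 * M) : ZMod m →+ ZMod M :=
  (ZMod.castHom (Dvd.intro_left 2 hM.symm) (ZMod M)).toAddMonoidHom

/-- the vertices of `AA` whose colour at `y` is not in `K`. -/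
def XK (c : V → V → ZMod m) (w y : V) : Finset V := (AA c w).filter (fun x => c y x + c y x ≠ 0)

/-- the situation: `m` even, `AA c w` is a large class modulo `K` with one colour. -/
structure EW (c : V → V → ZMod m) (s M : ℕ) (w : V) : Prop extends WS0 c s w where
  hM : m = 2 * M
  s5 : 5 ≤ s ∨ (s = 4 ∧ m = 12)
  h20 : m ≠ 20 ∨ s ≠ 6
  kb : ∀ b ∈ BB c w, c w b + c w b ≠ 0

/-- the vertices with colour in `K` at `w`. -/
def AK (c : V → V → ZMod m) (w : V) : Finset V := (univ.erase w).filter (fun x => c w x + c w x = 0)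

/-- the other vertices. -/
def BK (c : V → V → ZMod m) (w : V) : Finset V := (univ.erase w).filter (fun x => c w x + c w x ≠ 0)

/-- the vertices of `AK`, except `x0`, `x1`, whose colour at `y` is not in `K`. -/
def PK (c : V → V → ZMod m) (w x0 x1 y : V) : Finset V :=
  (((AK c w).erase x0).erase x1).filter (fun x => c y x + c y x ≠ 0)

/-- the situation: `m` even, a large class modulo `K` at `w` with both colours `0`, `M`. -/
structure MX (c : V → V → ZMod m) (s M : ℕ) (w x0 x1 : V) : Prop where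
  sym : ∀ x y, c x y = c y x
  zsf : ZSF m c
  card : Fintype.card V = m + s
  hM : m = 2 * M
  s5 : 5 ≤ s ∨ (s = 4 ∧ m = 12)
  m1 : 3 * s ≤ m + 2
  m2 : m ≤ 3 * s + 2
  h20 : m ≠ 20 ∨ s ≠ 6
  x0w : x0 ≠ w
  x1w : x1 ≠ w
  c0 : c w x0 = 0
  c1 : c w x1 = (M : ZMod m)
  big : m ≤ (AK c w).card + s

/-- the differences modulo `M` at the root `y` (for `MX`). -/
def dK {M : ℕ} (hM : m = 2 * M) (c : V → V → ZMod m) (w y : V) : V → ZMod M :=
  fun x => if c w x + c w x = 0 then - pr hM (c y x) else pr hM (c w x)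

/-- the types of a problematic root `y` (for `EW`). -/
def PT (c : V → V → ZMod m) (s : ℕ) (w y : V) (H : AddSubgroup (ZMod m)) : Prop :=
  (H.index = 2 ∧ ∀ b ∈ (BB c w).erase y, c w b ∈ H) ∨
  (m = 3 * s ∧ Nat.card H = 3 ∧ (outK (c w) ((BB c w).erase y) H).card + 2 = s) ∨
  (m = 3 * s ∧ Nat.card H = s ∧ (outK (c w) ((BB c w).erase y) H).card = 1) ∨
  (m = 16 ∧ s = 5 ∧ Nat.card H = 4 ∧ (outK (c w) ((BB c w).erase y) H).card = 2)

/-- `y` has an aperiodic `W`-cube with `μ` elements of `XK`. -/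
def AP (c : V → V → ZMod m) (s μ : ℕ) (w y : V) : Prop :=
  ∃ J0 P0 : Finset V, J0 ⊆ (BB c w).erase y ∧ J0.card + 1 = s ∧ P0 ⊆ XK c w y ∧ P0.card = μ ∧
    Aper (cube (dlt c w y) (J0 ∪ P0))

theorem mem_XK {c : V → V → ZMod m} {w y x : V} : x ∈ XK c w y ↔ x ∈ AA c w ∧ c y x + c y x ≠ 0 := by
  unfold XK
  rw [Finset.mem_filter]

theorem mem_AK {c : V → V → ZMod m} {w x : V} : x ∈ AK c w ↔ x ≠ w ∧ c w x + c w x = 0 := by
  unfold AK
  rw [Finset.mem_filter, Finset.mem_erase]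
  exact ⟨fun h => ⟨h.1.1, h.2⟩, fun h => ⟨⟨h.1, Finset.mem_univ x⟩, h.2⟩⟩

theorem mem_BK {c : V → V → ZMod m} {w x : V} : x ∈ BK c w ↔ x ≠ w ∧ c w x + c w x ≠ 0 := by
  unfold BK
  rw [Finset.mem_filter, Finset.mem_erase]
  exact ⟨fun h => ⟨h.1.1, h.2⟩, fun h => ⟨⟨h.1, Finset.mem_univ x⟩, h.2⟩⟩

theorem mem_PK {c : V → V → ZMod m} {w x0 x1 y x : V} : x ∈ PK c w x0 x1 y ↔
    x ∈ AK c w ∧ x ≠ x0 ∧ x ≠ x1 ∧ c y x + c y x ≠ 0 := by
  unfold PK
  rw [Finset.mem_filter, Finset.mem_erase, Finset.mem_erase]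
  tauto

theorem mem_AA' {c : V → V → ZMod m} {w x : V} : x ∈ AA c w ↔ x ≠ w ∧ c w x = 0 := by
  unfold AA
  rw [Finset.mem_filter, Finset.mem_erase]
  exact ⟨fun h => ⟨h.1.1, h.2⟩, fun h => ⟨⟨h.1, Finset.mem_univ x⟩, h.2⟩⟩

theorem mem_BB' {c : V → V → ZMod m} {w x : V} : x ∈ BB c w ↔ x ≠ w ∧ c w x ≠ 0 := by
  unfold BB
  rw [Finset.mem_filter, Finset.mem_erase]
  exact ⟨fun h => ⟨h.1.1, h.2⟩, fun h => ⟨⟨h.1, Finset.mem_univ x⟩, h.2⟩⟩

end M3
end ZS44129
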