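import Pool.Agent.Work.MP_44129c_co.M3.F3A
import Pool.Agent.Work.MP_44129c_co.M3.Xl

/-!
# MP_44129c_co/M3, F3B (size M-L): `m = 3 s` even, a root of order 3: full roots

Text: helper43 (`/team-store/44129c_helper43_10.md`, (1e)-(1g)).  Notation of F3A: `Z = outK (c w) (BB.erase y) H`, `|Z| = s - 2`, `B3 = {b ∈ BB : c w b ∈ H}`, `|B3| = e - s + 1`, `s ≥ 6` even, `BB` = `Z`, `{y}`, `B3` (disjoint).
PROOF.  (1) For `x ∈ AA`, `z ∈ Z`: `c x z ∉ H`: `coreA` (`|H| = 3`): at least `s - 2` elements `z` of `outK (c w) BB H = insert y Z` have `c x z ∉ H`, and `c x y ∈ H` (`zy`): so all `z ∈ Z`.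
(2) `c x z1 ≠ M` for `x ∈ AA`, `z1 ∈ Z`.  Suppose `c x z1 = M`.  CLAIM: `M + ∑_{Z'} c w z ∉ H` for nonempty `Z' ⊆ Z.erase z1`.  Suppose it is in `H`.  `st_x` with `z1 ∈ I2` (colour `M` at `x`), `Z' ⊆ I1`:
    * `c x y ≠ 0` (`∈ H` by `zy`): `b1 ∈ B3`; by `p3` `- (M + ∑_{Z'} c w z + ∑_{B3.erase b1} c w b)` is `0`, `c x y`, `c w b1` or `c x y + c w b1`: `I1 = Z' ∪ B3.erase b1` (and `b1`), `I2 = {z1}` (and `y`); outside are `≤ (s - 3 - |Z'|) + 2 ≤ s - 1` elements.
    * `c x y = 0`: `W.c1A` (`h.toWS0`): `s ≤ #{b ∈ BB : c x b ≠ 0} ≤ e - 1`, so `|B3| ≥ 2`: `b1 ≠ b2` in `B3`: `I2 = {z1}`, `I1 = Z' ∪ (B3 \ {b1, b2})` and a subset of `{b1, b2}` (`p3`); outside are `≤ (s - 3 - |Z'|) + 1 + 2 ≤ s - 1` elements.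
    In both cases the sum is `0`: contradiction.
    Now let `H6 = H ⊔ K` (`K` of order 2, `exists_K`): `3` and `2` divide `|H6|`, so `6 ∣ |H6|`, `H6.index ≤ s / 2` (`|H6| * H6.index = 3 s`), `s / 2 ≤ s - 3 = |Z.erase z1|`.  `dav`: a nonempty `Z' ⊆ Z.erase z1` with `∑_{Z'} c w z ∈ H6`, i.e. `= h + k`, `k = 0` or `M`: `∑_{Z'} ∈ H` (excluded by `zf`) or `M + ∑_{Z'} ∈ H` (`M + M = 0`; excluded by the claim).
So for `z ∈ Z`, `x ∈ AA`: `c z x ∉ H`, `c z x ≠ M`, so `c z x + c z x ≠ 0` (`two_tor`): `XK c w z = AA c w`.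
    For `(s, m) = (4, 12)` (`M = 6`, `|Z| = 2`, `Z = {z1, z2}`) instead, `f4_pair`: by `zf` and `zyc` no nonempty sum of `c w z1`, `c w z2`, `c w y` is in `H` (`a ∈ H ↔ 3 a = 0`: `f4_mem`), so (`f4_arith`) `M + c w z2 + c w y ∈ H` and `6 c w y ≠ 0` (`c w y` is odd).  Suppose `c x z1 = M`.  `e = 4`: `b_ge`: no `b ∈ BB` has
    `c x b + c x b = 0`: contradiction.  `e ≥ 5`: `b1 ≠ b2` in `B3`: `st_x` with `I2 = {z1}`, `I1 = {z2, y} ∪ (B3 \ {b1, b2})` and a subset of `{b1, b2}` (`p3`).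
(3) Let `z ∈ Z`, `H2` of index 2, `c w b ∈ H2` for all `b ∈ BB.erase z`.  `H ≤ H2` (`a ∈ H`: `3 • a = 0`, so `a = 3 a - 2 a = b + b` with `b = - a`: `even_idx`).  `grow` for `S = Z.erase z` (`zf`): a set with at least `(s - 2) * 3` elements, all in `H2` (`|H2| = 3 s / 2`): `6 (s - 2) ≤ 3 s`: `s ≤ 4`: contradiction.  For `s = 4`: `y ∈ BB.erase z`, `c w y` is odd (`f4_pair`).
-/

set_option autoImplicit false

namespace ZS44129
namespace M3

open Finset E W

variable {V : Type} [Fintype V] [DecidableEq V] {m : ℕ} {c : V → V → ZMod m} {s M : ℕ} {w : V}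

private theorem hlp (h : EW c s M w) (H : AddSubgroup (ZMod m)) {x y z1 : V} (hx : x ∈ AA c w)
    (hy : y ∈ BB c w) (hyH : c w y ∉ H) (B3 Z : Finset V) (hB3 : ∀ b, b ∈ B3 ↔ b ∈ BB c w ∧ c w b ∈ H)
    (hZ : ∀ b, b ∈ Z ↔ b ∈ BB c w ∧ b ≠ y ∧ c w b ∉ H) (hcard : B3.card + s = (BB c w).card + 1)
    (hz1 : z1 ∈ Z) (hM1 : c x z1 = (M : ZMod m)) (Z' : Finset V) (hZ' : Z' ⊆ Z.erase z1)
    (hne : Z'.Nonempty) (R : Finset V) (hR : R ⊆ B3) (hRc : B3.card ≤ R.card + 2) (Y : Finset V)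
    (hY : Y ⊆ {y}) :
    (M : ZMod m) + ∑ b ∈ Z', c w b + ∑ b ∈ R, c w b + ∑ b ∈ Y, c x b ≠ 0 := by
  have hdZR : Disjoint Z' R := by
    rw [disjoint_left]
    intro b hb hb'
    exact ((hZ b).mp (mem_of_mem_erase (hZ' hb))).2.2 ((hB3 b).mp (hR hb')).2
  have hz1Y : z1 ∉ Y := by
    intro hb
    have := mem_singleton.mp (hY hb)
    exact ((hZ z1).mp hz1).2.1 this
  have hYs : ∀ b ∈ Y, b = y := fun b hb => mem_singleton.mp (hY hb)
  have h1 : Z' ∪ R ⊆ BB c w := by
    intro b hb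
    rcases mem_union.mp hb with hb | hb
    · exact ((hZ b).mp (mem_of_mem_erase (hZ' hb))).1
    · exact ((hB3 b).mp (hR hb)).1
  have h2 : insert z1 Y ⊆ BB c w := by
    intro b hb
    rcases mem_insert.mp hb with hb | hb
    · rw [hb]
      exact ((hZ z1).mp hz1).1
    · rw [hYs b hb]
      exact hy
  have h3 : Disjoint (Z' ∪ R) (insert z1 Y) := by
    rw [disjoint_left]
    intro b hb hb'
    rcases mem_insert.mp hb' with hb' | hb'
    · rw [hb'] at hb
      rcases mem_union.mp hb with hb | hb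
      · exact (mem_erase.mp (hZ' hb)).1 rfl
      · exact ((hZ z1).mp hz1).2.2 ((hB3 z1).mp (hR hb)).2
    · rw [hYs b hb'] at hb
      rcases mem_union.mp hb with hb | hb
      · exact ((hZ y).mp (mem_of_mem_erase (hZ' hb))).2.1 rfl
      · exact hyH ((hB3 y).mp (hR hb)).2
  have h4 : (BB c w).card + 1 ≤ (Z' ∪ R).card + (insert z1 Y).card + s := by
    rw [card_union_of_disjoint hdZR, card_insert_of_notMem hz1Y]
    have := card_pos.mpr hne
    omega
  have h5 := st_x h hx (Z' ∪ R) (insert z1 Y) h1 h2 h3 h4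
  rw [sum_union hdZR, sum_insert hz1Y, hM1] at h5
  intro h6
  apply h5
  rw [← h6]
  ring

private theorem claimA [NeZero m] (h : EW c s M w) (H : AddSubgroup (ZMod m)) (hH : Nat.card H = 3)
    {x y z1 : V} (hx : x ∈ AA c w)
    (hy : y ∈ BB c w) (hyH : c w y ∉ H) (hxy : c x y ∈ H)
    (B3 Z : Finset V) (hB3 : ∀ b, b ∈ B3 ↔ b ∈ BB c w ∧ c w b ∈ H)
    (hZ : ∀ b, b ∈ Z ↔ b ∈ BB c w ∧ b ≠ y ∧ c w b ∉ H) (hcard : B3.card + s = (BB c w).card + 1)
    (hz1 : z1 ∈ Z) (hM1 : c x z1 = (M : ZMod m)) (Z' : Finset V) (hZ' : Z' ⊆ Z.erase z1)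
    (hne : Z'.Nonempty) : (M : ZMod m) + ∑ b ∈ Z', c w b ∉ H := by
  intro hin
  have he1 := h.e1
  have hlp' := hlp h H hx hy hyH B3 Z hB3 hZ hcard hz1 hM1 Z' hZ' hne
  have hnz : ∀ b ∈ B3, c w b ≠ 0 := fun b hb => (mem_BB'.mp ((hB3 b).mp hb).1).2
  by_cases h0 : c x y = 0
  · have h1 := c1A h.toWS0 hx
    have h2 : ((BB c w).filter (fun z => c x z ≠ 0)).card ≤ ((BB c w).erase y).card := by
      apply card_le_card
      intro z hz
      rw [mem_filter] at hz
      refine mem_erase.mpr ⟨?_, hz.1⟩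
      rintro rfl
      exact hz.2 h0
    rw [card_erase_of_mem hy] at h2
    have hs5 := h.s5
    have h3 : 1 < B3.card := by omega
    obtain ⟨b1, hb1, b2, hb2, hb12⟩ := one_lt_card.mp h3
    have hb2' : b2 ∈ B3.erase b1 := mem_erase.mpr ⟨hb12.symm, hb2⟩
    have hb1' : b1 ∈ B3.erase b2 := mem_erase.mpr ⟨hb12, hb1⟩
    have hc1 : (B3.erase b1).card + 1 = B3.card := card_erase_add_one hb1
    have hc1' : (B3.erase b2).card + 1 = B3.card := card_erase_add_one hb2
    have hc2 : ((B3.erase b1).erase b2).card + 1 = (B3.erase b1).card := card_erase_add_one hb2'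
    have s1 : c w b1 + ∑ b ∈ B3.erase b1, c w b = ∑ b ∈ B3, c w b := add_sum_erase _ _ hb1
    have s2 : c w b2 + ∑ b ∈ (B3.erase b1).erase b2, c w b = ∑ b ∈ B3.erase b1, c w b :=
      add_sum_erase _ _ hb2'
    have s3 : c w b1 + ∑ b ∈ (B3.erase b1).erase b2, c w b = ∑ b ∈ B3.erase b2, c w b := by
      rw [erase_right_comm]
      exact add_sum_erase _ _ hb1'
    have ht : -((M : ZMod m) + ∑ b ∈ Z', c w b + ∑ b ∈ (B3.erase b1).erase b2, c w b) ∈ H := by
      refine H.neg_mem (H.add_mem hin (H.sum_mem fun b hb => ?_))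
      exact ((hB3 b).mp (mem_of_mem_erase (mem_of_mem_erase hb))).2
    rcases p3 H hH ((hB3 b1).mp hb1).2 (hnz b1 hb1) ((hB3 b2).mp hb2).2 (hnz b2 hb2) ht with e | e | e | e
    · refine hlp' ((B3.erase b1).erase b2) ((erase_subset _ _).trans (erase_subset _ _)) (by omega) ∅
        (empty_subset _) ?_
      rw [sum_empty, add_zero]
      linear_combination -e
    · refine hlp' (B3.erase b2) (erase_subset _ _) (by omega) ∅ (empty_subset _) ?_
      rw [sum_empty, add_zero, ← s3]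
      linear_combination -e
    · refine hlp' (B3.erase b1) (erase_subset _ _) (by omega) ∅ (empty_subset _) ?_
      rw [sum_empty, add_zero, ← s2]
      linear_combination -e
    · refine hlp' B3 (Finset.Subset.refl _) (by omega) ∅ (empty_subset _) ?_
      rw [sum_empty, add_zero, ← s1, ← s2]
      linear_combination -e
  · have h3 : 0 < B3.card := by omega
    obtain ⟨b1, hb1⟩ := card_pos.mp h3
    have hc1 : (B3.erase b1).card + 1 = B3.card := card_erase_add_one hb1
    have s1 : c w b1 + ∑ b ∈ B3.erase b1, c w b = ∑ b ∈ B3, c w b := add_sum_erase _ _ hb1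
    have ht : -((M : ZMod m) + ∑ b ∈ Z', c w b + ∑ b ∈ B3.erase b1, c w b) ∈ H := by
      refine H.neg_mem (H.add_mem hin (H.sum_mem fun b hb => ?_))
      exact ((hB3 b).mp (mem_of_mem_erase hb)).2
    rcases p3 H hH hxy h0 ((hB3 b1).mp hb1).2 (hnz b1 hb1) ht with e | e | e | e
    · refine hlp' (B3.erase b1) (erase_subset _ _) (by omega) ∅ (empty_subset _) ?_
      rw [sum_empty, add_zero]
      linear_combination -e
    · refine hlp' (B3.erase b1) (erase_subset _ _) (by omega) {y} (Finset.Subset.refl _) ?_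
      rw [sum_singleton]
      linear_combination -e
    · refine hlp' B3 (Finset.Subset.refl _) (by omega) ∅ (empty_subset _) ?_
      rw [sum_empty, add_zero, ← s1]
      linear_combination -e
    · refine hlp' B3 (Finset.Subset.refl _) (by omega) {y} (Finset.Subset.refl _) ?_
      rw [sum_singleton, ← s1]
      linear_combination -e

private theorem f4_mem [NeZero m] (hm : m = 12) (H : AddSubgroup (ZMod m)) (hH : Nat.card H = 3)
    (a : ZMod m) : a ∈ H ↔ a + a + a = 0 := by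
  constructor
  · intro ha
    have h1 : Nat.card H • (⟨a, ha⟩ : H) = 0 := card_nsmul_eq_zero'
    rw [hH] at h1
    have h2 : ((3 • (⟨a, ha⟩ : H) : H) : ZMod m) = 0 := by
      rw [h1]
      rfl
    have h3 : (3 : ℕ) • a = 0 := h2
    rw [← h3, succ_nsmul, two_nsmul]
  · intro ha
    have hidx := card_mul_index' H
    have h1 : H.index = 4 := by rw [hH] at hidx; omega
    have h2 := AddSubgroup.nsmul_index_mem H a
    rw [h1] at h2
    have h3 : (4 : ℕ) • a = a := by
      have : (4 : ℕ) • a = a + (a + a + a) := by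
        rw [succ_nsmul, succ_nsmul, two_nsmul]
        abel
      rw [this, ha, add_zero]
    rwa [h3] at h2

private theorem f4_arith (a b g : ZMod 12) (h1 : a + a + a ≠ 0) (h2 : b + b + b ≠ 0)
    (h3 : (a + b) + (a + b) + (a + b) ≠ 0) (h4 : g + g + g ≠ 0)
    (h5 : (g + a) + (g + a) + (g + a) ≠ 0) (h6 : (g + b) + (g + b) + (g + b) ≠ 0)
    (h7 : (g + (a + b)) + (g + (a + b)) + (g + (a + b)) ≠ 0) :
    (6 + b + g) + (6 + b + g) + (6 + b + g) = 0 ∧ g + g + g + (g + g + g) ≠ 0 := by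
  revert a b g
  decide

/-- `(s, m) = (4, 12)`: the colours of `z1`, `z2`, `y` are congruent modulo `H`, and odd. -/
private theorem f4_pair [NeZero m] (h : EW c s M w) (hs : s = 4) (hm : m = 12)
    (H : AddSubgroup (ZMod m)) (hH : Nat.card H = 3) {y : V} (hy : y ∈ BB c w) (hyH : c w y ∉ H)
    (hX : ∀ x ∈ XK c w y, c y x ∈ H) (hX2 : 2 ≤ (XK c w y).card)
    (hk : (outK (c w) ((BB c w).erase y) H).card + 2 = s) {z1 z2 : V}
    (hZ : outK (c w) ((BB c w).erase y) H = {z1, z2}) (hne : z1 ≠ z2) :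
    (∀ x ∈ AA c w, c x z1 ≠ (M : ZMod m)) ∧
      ∀ H2 : AddSubgroup (ZMod m), H2.index = 2 → c w y ∉ H2 := by
  have hM := h.hM
  have he1 := h.e1
  have zf' := fun T h1 h2 => zf h (by omega) H hH hy hyH hX hX2 hk T h1 h2
  have zy' := fun T h1 => zyc h (by omega) H hH hy hX hX2 hk T h1
  rw [hZ] at zf' zy'
  have k1 : ({z1} : Finset V) ⊆ {z1, z2} := by
    rw [singleton_subset_iff]; exact mem_insert_self _ _
  have k2 : ({z2} : Finset V) ⊆ {z1, z2} := by
    rw [singleton_subset_iff]; exact mem_insert_of_mem (mem_singleton_self _)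
  have a1 := zf' {z1} k1 (singleton_nonempty _)
  have a2 := zf' {z2} k2 (singleton_nonempty _)
  have a3 := zf' {z1, z2} (Finset.Subset.refl _) ⟨z1, mem_insert_self _ _⟩
  have a4 := zy' ∅ (empty_subset _)
  have a5 := zy' {z1} k1
  have a6 := zy' {z2} k2
  have a7 := zy' {z1, z2} (Finset.Subset.refl _)
  rw [sum_singleton, f4_mem hm H hH] at a1 a2
  rw [sum_pair hne, f4_mem hm H hH] at a3
  rw [sum_empty, add_zero, f4_mem hm H hH] at a4
  rw [sum_singleton, f4_mem hm H hH] at a5 a6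
  rw [sum_pair hne, f4_mem hm H hH] at a7
  obtain ⟨q1, q2⟩ : (6 + c w z2 + c w y) + (6 + c w z2 + c w y) + (6 + c w z2 + c w y) = 0 ∧
      c w y + c w y + c w y + (c w y + c w y + c w y) ≠ 0 := by
    generalize c w z1 = a at *
    generalize c w z2 = b at *
    generalize c w y = g at *
    clear zf' zy' hX hyH hk hZ h hH
    subst hm
    exact f4_arith a b g a1 a2 a3 a4 a5 a6 a7
  rw [← f4_mem hm H hH] at q1
  have h6 : (6 : ZMod m) = (M : ZMod m) := by
    have : M = 6 := by omega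
    rw [this]
    norm_num
  rw [h6] at q1
  have hz1 : z1 ∈ outK (c w) ((BB c w).erase y) H := by rw [hZ]; exact mem_insert_self _ _
  have hz2 : z2 ∈ outK (c w) ((BB c w).erase y) H := by
    rw [hZ]; exact mem_insert_of_mem (mem_singleton_self _)
  obtain ⟨hz1e, hz1H⟩ := mem_outK.1 hz1
  obtain ⟨hz2e, hz2H⟩ := mem_outK.1 hz2
  obtain ⟨hz1y, hz1B⟩ := mem_erase.1 hz1e
  obtain ⟨hz2y, hz2B⟩ := mem_erase.1 hz2e
  refine ⟨fun x hx hc => ?_, fun H2 hH2 hin => ?_⟩
  · rcases Nat.lt_or_ge (BB c w).card 5 with he | he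
    · -- e = 4
      have h1 := b_ge h hx
      have h2 : (BB c w).filter (fun z => c x z + c x z ≠ 0) = BB c w :=
        eq_of_subset_of_card_le (filter_subset _ _) (by omega)
      have h3 := hz1B
      rw [← h2] at h3
      refine (mem_filter.1 h3).2 ?_
      rw [hc]
      exact M_add hM
    · have h1 := inK_add_outK (c w) ((BB c w).erase y) H
      have h2 := card_erase_add_one hy
      set B3 := inK (c w) ((BB c w).erase y) H with hB3
      have hB3m : ∀ b ∈ B3, b ∈ BB c w ∧ b ≠ y ∧ c w b ∈ H := by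
        intro b hb
        rw [hB3, mem_inK, mem_erase] at hb
        exact ⟨hb.1.2, hb.1.1, hb.2⟩
      obtain ⟨b1, hb1, b2, hb2, hb12⟩ := one_lt_card.mp (show 1 < B3.card by omega)
      have hnz : ∀ b ∈ B3, c w b ≠ 0 := fun b hb => (mem_BB'.mp (hB3m b hb).1).2
      have hb2' : b2 ∈ B3.erase b1 := mem_erase.mpr ⟨hb12.symm, hb2⟩
      have hb1' : b1 ∈ B3.erase b2 := mem_erase.mpr ⟨hb12, hb1⟩
      have hc1 : (B3.erase b1).card + 1 = B3.card := card_erase_add_one hb1
      have hc1' : (B3.erase b2).card + 1 = B3.card := card_erase_add_one hb2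
      have hc2 : ((B3.erase b1).erase b2).card + 1 = (B3.erase b1).card := card_erase_add_one hb2'
      have s1 : c w b1 + ∑ b ∈ B3.erase b1, c w b = ∑ b ∈ B3, c w b := add_sum_erase _ _ hb1
      have s2 : c w b2 + ∑ b ∈ (B3.erase b1).erase b2, c w b = ∑ b ∈ B3.erase b1, c w b :=
        add_sum_erase _ _ hb2'
      have s3 : c w b1 + ∑ b ∈ (B3.erase b1).erase b2, c w b = ∑ b ∈ B3.erase b2, c w b := by
        rw [erase_right_comm]
        exact add_sum_erase _ _ hb1'
      have hst : ∀ R ⊆ B3, B3.card ≤ R.card + 2 →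
          (M : ZMod m) + c w z2 + c w y + ∑ b ∈ R, c w b ≠ 0 := by
        intro R hR hRc
        have hyR : y ∉ R := fun hy' => (hB3m y (hR hy')).2.1 rfl
        have hz2R : z2 ∉ insert y R := by
          intro hz
          rcases mem_insert.1 hz with h3 | h3
          · exact hz2y h3
          · exact hz2H (hB3m z2 (hR h3)).2.2
        have hz1R : z1 ∉ insert z2 (insert y R) := by
          intro hz
          rcases mem_insert.1 hz with h3 | h3
          · exact hne h3
          rcases mem_insert.1 h3 with h4 | h4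
          · exact hz1y h4
          · exact hz1H (hB3m z1 (hR h4)).2.2
        have h3 := st_x h hx (insert z2 (insert y R)) {z1} (by
          intro b hb
          rcases mem_insert.1 hb with h4 | h4
          · rw [h4]; exact hz2B
          rcases mem_insert.1 h4 with h5 | h5
          · rw [h5]; exact hy
          · exact (hB3m b (hR h5)).1) (singleton_subset_iff.2 hz1B)
          (disjoint_singleton_right.2 hz1R) (by
            rw [card_insert_of_notMem hz2R, card_insert_of_notMem hyR, card_singleton]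
            omega)
        rw [sum_insert hz2R, sum_insert hyR, sum_singleton, hc] at h3
        intro h4
        apply h3
        rw [← h4]
        ring
      have ht : -((M : ZMod m) + c w z2 + c w y + ∑ b ∈ (B3.erase b1).erase b2, c w b) ∈ H := by
        refine H.neg_mem (H.add_mem q1 (H.sum_mem fun b hb => ?_))
        exact (hB3m b (mem_of_mem_erase (mem_of_mem_erase hb))).2.2
      rcases p3 H hH (hB3m b1 hb1).2.2 (hnz b1 hb1) (hB3m b2 hb2).2.2 (hnz b2 hb2) ht with
        e | e | e | e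
      · refine hst ((B3.erase b1).erase b2) ((erase_subset _ _).trans (erase_subset _ _))
          (by omega) ?_
        linear_combination -e
      · refine hst (B3.erase b2) (erase_subset _ _) (by omega) ?_
        rw [← s3]
        linear_combination -e
      · refine hst (B3.erase b1) (erase_subset _ _) (by omega) ?_
        rw [← s2]
        linear_combination -e
      · refine hst B3 (Finset.Subset.refl _) (by omega) ?_
        rw [← s1, ← s2]
        linear_combination -e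
  · obtain ⟨b, hb⟩ := (even_idx hM H2 hH2 _).1 hin
    apply q2
    rw [hb]
    have h12 : ((12 : ℕ) : ZMod m) = 0 := by
      rw [← hm]
      exact ZMod.natCast_self m
    have h13 : (12 : ZMod m) = 0 := by exact_mod_cast h12
    linear_combination b * h13

theorem f3_data [NeZero m] (h : EW c s M w) (hm : m = 3 * s) (H : AddSubgroup (ZMod m))
    (hH : Nat.card H = 3) {y : V} (hy : y ∈ BB c w) (hyH : c w y ∉ H) (hX : ∀ x ∈ XK c w y, c y x ∈ H)
    (hX2 : 2 ≤ (XK c w y).card) (hk : (outK (c w) ((BB c w).erase y) H).card + 2 = s) :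
    ∃ Z ⊆ BB c w, Z.card + 2 = s ∧ (∀ z ∈ Z, ∀ x ∈ AA c w, c z x ∉ H) ∧
      (∀ z ∈ Z, XK c w z = AA c w) ∧
      ∀ z ∈ Z, ∀ H2 : AddSubgroup (ZMod m), H2.index = 2 → ¬ ∀ b ∈ (BB c w).erase z, c w b ∈ H2 := by
  have hs5 := h.s5
  have hmM := h.hM
  set Z := outK (c w) ((BB c w).erase y) H with hZdef
  have hZ : ∀ b, b ∈ Z ↔ b ∈ BB c w ∧ b ≠ y ∧ c w b ∉ H := by
    intro b
    rw [hZdef, mem_outK, mem_erase]
    tauto
  have hB3 : ∀ b, b ∈ inK (c w) (BB c w) H ↔ b ∈ BB c w ∧ c w b ∈ H := fun b => mem_inK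
  have hyZ : y ∉ Z := fun hyZ => ((hZ y).mp hyZ).2.1 rfl
  have hout : outK (c w) (BB c w) H = insert y Z := by
    ext b
    rw [mem_outK, mem_insert, hZ]
    constructor
    · rintro ⟨h1, h2⟩
      by_cases hb : b = y
      · exact Or.inl hb
      · exact Or.inr ⟨h1, hb, h2⟩
    · rintro (rfl | ⟨h1, _, h2⟩)
      · exact ⟨hy, hyH⟩
      · exact ⟨h1, h2⟩
  have hcard : (inK (c w) (BB c w) H).card + s = (BB c w).card + 1 := by
    have h1 := inK_add_outK (c w) (BB c w) H
    rw [hout, card_insert_of_notMem hyZ] at h1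
    omega
  have hZB : Z ⊆ BB c w := fun b hb => ((hZ b).mp hb).1
  -- (1)
  have hxy : ∀ x ∈ AA c w, c x y ∈ H := fun x hx => zy h hm H hH hy hyH hX hX2 hk hx
  have p1 : ∀ x ∈ AA c w, ∀ z ∈ Z, c x z ∉ H := by
    intro x hx z hz
    have h1 := coreA h.toWS0 H (by rw [hH]; omega) hx
    rw [hH, hout] at h1
    have h2 : outK (fun z => c x z) (insert y Z) H ⊆ Z := by
      intro b hb
      rw [mem_outK, mem_insert] at hb
      rcases hb.1 with hb1 | hb1
      · exact absurd (by rw [hb1]; exact hxy x hx) hb.2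
      · exact hb1
    have h3 : outK (fun z => c x z) (insert y Z) H = Z := eq_of_subset_of_card_le h2 (by omega)
    rw [← h3, mem_outK] at hz
    exact hz.2
  -- zero-sum free
  have hzf : ∀ T : Finset V, T ⊆ Z → T.Nonempty → ∑ b ∈ T, c w b ∉ H := fun T hT hne =>
    zf h hm H hH hy hyH hX hX2 hk T hT hne
  -- (2)
  have p4 : s = 4 → m = 12 → ∀ z1 ∈ Z, (∀ x ∈ AA c w, c x z1 ≠ (M : ZMod m)) ∧
      ∀ H2 : AddSubgroup (ZMod m), H2.index = 2 → c w y ∉ H2 := by
    intro hs4 hm12 z1 hz1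
    have h1 : (Z.erase z1).card = 1 := by
      have := card_erase_add_one hz1
      omega
    obtain ⟨z2, hz2⟩ := card_eq_one.1 h1
    have hz2' : z2 ∈ Z.erase z1 := by rw [hz2]; exact mem_singleton_self z2
    have h2 : Z = {z1, z2} := by
      rw [← insert_erase hz1, hz2]
    exact f4_pair h hs4 hm12 H hH hy hyH hX hX2 hk h2 (ne_of_mem_erase hz2').symm
  have p2 : ∀ x ∈ AA c w, ∀ z1 ∈ Z, c x z1 ≠ (M : ZMod m) := by
    intro x hx z1 hz1 hM1
    rcases hs5 with hs5 | ⟨hs4, hm12⟩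
    swap
    · exact (p4 hs4 hm12 z1 hz1).1 x hx hM1
    obtain ⟨K, hK⟩ := exists_K (m := m) hmM
    have d1 : 2 ∣ Nat.card (H ⊔ K : AddSubgroup (ZMod m)) := by
      rw [← hK]
      exact AddSubgroup.card_dvd_of_le le_sup_right
    have d2 : 3 ∣ Nat.card (H ⊔ K : AddSubgroup (ZMod m)) := by
      rw [← hH]
      exact AddSubgroup.card_dvd_of_le le_sup_left
    have d3 : 6 ∣ Nat.card (H ⊔ K : AddSubgroup (ZMod m)) := by
      have := Nat.Coprime.mul_dvd_of_dvd_of_dvd (by norm_num : Nat.Coprime 2 3) d1 d2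
      simpa using this
    obtain ⟨q, hq⟩ := d3
    have hidx := card_mul_index' (H ⊔ K : AddSubgroup (ZMod m))
    have hqi : (H ⊔ K : AddSubgroup (ZMod m)).index ≤ (Z.erase z1).card := by
      rw [card_erase_of_mem hz1]
      have hq1 : 1 ≤ q := by
        rcases Nat.eq_zero_or_pos q with h1 | h1
        · rw [hq, h1] at hidx
          omega
        · exact h1
      have h2 : 6 * (H ⊔ K : AddSubgroup (ZMod m)).index ≤ m := by
        calc 6 * (H ⊔ K : AddSubgroup (ZMod m)).index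
            ≤ 6 * q * (H ⊔ K : AddSubgroup (ZMod m)).index := Nat.mul_le_mul_right _ (by omega)
          _ = m := by rw [← hq, hidx]
      omega
    obtain ⟨T, hT, hTne, hTs⟩ := dav (c w) (Z.erase z1) (H ⊔ K) hqi
    obtain ⟨a, ha, k, hk', hak⟩ := AddSubgroup.mem_sup.mp hTs
    have hkk := (mem_of_card2 hmM K hK k).mp hk'
    rcases two_tor hmM hkk with h1 | h1
    · apply hzf T (hT.trans (erase_subset _ _)) hTne
      rw [← hak, h1, add_zero]
      exact ha
    · apply claimA h H hH hx hy hyH (hxy x hx) (inK (c w) (BB c w) H) Z hB3 hZ hcard hz1 hM1 T hT hTne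
      have h2 : (M : ZMod m) + ∑ b ∈ T, c w b = a := by
        rw [← hak, h1]
        linear_combination M_add hmM
      rw [h2]
      exact ha
  refine ⟨Z, hZB, hk, ?_, ?_, ?_⟩
  · intro z hz x hx
    rw [h.sym z x]
    exact p1 x hx z hz
  · intro z hz
    ext x
    rw [mem_XK]
    constructor
    · exact fun hx => hx.1
    · intro hx
      refine ⟨hx, ?_⟩
      intro h1
      rw [h.sym z x] at h1
      rcases two_tor hmM h1 with h2 | h2
      · apply p1 x hx z hz
        rw [h2]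
        exact H.zero_mem
      · exact p2 x hx z hz h2
  · intro z hz H2 hH2 hall
    rcases hs5 with hs5 | ⟨hs4, hm12⟩
    swap
    · refine (p4 hs4 hm12 z hz).2 H2 hH2 (hall y (mem_erase.2 ⟨?_, hy⟩))
      rintro rfl
      exact hyZ hz
    have hle : ∀ a ∈ H, a ∈ H2 := by
      intro a ha
      rw [even_idx hmM H2 hH2]
      refine ⟨-a, ?_⟩
      have h1 : Nat.card H • (⟨a, ha⟩ : H) = 0 := card_nsmul_eq_zero'
      rw [hH] at h1
      have h2 : ((3 • (⟨a, ha⟩ : H) : H) : ZMod m) = 0 := by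
        rw [h1]
        rfl
      have h3 : (3 : ℕ) • a = 0 := h2
      have h4 : (3 : ZMod m) * a = 0 := by
        rw [← h3, nsmul_eq_mul]
        push_cast
        ring
      linear_combination h4
    classical
    have hg := grow (c w) (Z.erase z) H (fun T hT hne => hzf T (hT.trans (erase_subset _ _)) hne)
    have hsub : ((((Finset.univ : Finset (ZMod m)).filter
        (fun x => ∃ T ⊆ Z.erase z, x - ∑ i ∈ T, c w i ∈ H)) : Finset (ZMod m)) : Set (ZMod m)) ⊆
          (H2 : Set (ZMod m)) := by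
      intro x hx
      rw [mem_coe, mem_filter] at hx
      obtain ⟨_, T, hT, hxT⟩ := hx
      have h1 : x = (x - ∑ i ∈ T, c w i) + ∑ i ∈ T, c w i := by ring
      rw [SetLike.mem_coe, h1]
      refine H2.add_mem (hle _ hxT) (H2.sum_mem fun b hb => hall b ?_)
      have h2 := mem_erase.mp (hT hb)
      exact mem_erase.mpr ⟨h2.1, hZB h2.2⟩
    have hle2 := Set.ncard_le_ncard hsub (Set.toFinite _)
    rw [Set.ncard_coe_finset] at hle2
    have hcH2 : (H2 : Set (ZMod m)).ncard = Nat.card H2 := rfl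
    rw [hcH2] at hle2
    have h5 := hg.trans hle2
    rw [card_erase_add_one hz, hH] at h5
    have h6 := card_mul_index' H2
    rw [hH2] at h6
    omega

end M3
end ZS44129
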