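import Pool.Agent.Work.MP_44129c_co.M3.Defs
import Pool.Agent.Work.MP_44129c_co.P1.SubU

/-!
# MP_44129c_co/M3, Ker (size S-M): the subgroup `K` of order 2 and the reduction `pr hM`

PROOFS.  `pr_zero`: `pr hM a = 0 ↔ M ∣ a.val` (`ZMod.castHom_apply`, `ZMod.natCast_val`, `ZMod.natCast_eq_zero_iff`), and `a + a = 0 ↔ m ∣ 2 * a.val ↔ M ∣ a.val` (`m = 2 M`).
`two_tor`: `a.val < 2 M` and `M ∣ a.val`, so `a.val = 0` or `a.val = M`.  `M_ne`: `0 < M < m`.  `M_add`: `(M : ZMod m) + M = ((2 * M : ℕ) : ZMod m) = (m : ZMod m) = 0`.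
`pr_surj`: `ZMod.castHom_surjective`.  `card_comap`, `index_comap`: `AddSubgroup.index_comap_of_surjective`, and `Nat.card H * H.index = m` (`card_mul_index'` in P1/SubU) for both groups.
`K_le_comap`: `pr hM a = 0 ∈ H`.  `comap_ne`…: from the cardinalities.
`mem_of_card2`: `K'` of order 2: by Lagrange `a ∈ K' → 2 • a = 0`; the converse: the set of all `a` with `a + a = 0` has exactly the two elements `0, M` (`two_tor`), so `K'` (2 elements, contained in it) is all of it.
`exists_K`: `AddSubgroup.zmultiples (M : ZMod m)` (order `m / gcd m M = 2`: `ZMod.addOrderOf_coe`), or the kernel of `pr hM`.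
`even_idx`: `H` of index 2: `H = {a : a.val even}`: the subgroup of all `b + b` (`zmultiples 2`) has index 2 (`m` even), `sub_index_unique`.  The version with an integer `k` : `(k : ZMod m) ∈ H ↔ 2 ∣ k`.
`unit_even`: `g * a = b + b`, `g` a unit: `a = g⁻¹ b + g⁻¹ b`.
-/

set_option autoImplicit false

namespace ZS44129
namespace M3

open Finset

variable {m M : ℕ}

private theorem pr_zero_val [NeZero m] (hM : m = 2 * M) (a : ZMod m) :
    pr hM a = 0 ↔ M ∣ a.val := by
  have h1 : pr hM a = ((a.val : ℕ) : ZMod M) := by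
    have h2 : pr hM a = (ZMod.cast a : ZMod M) := rfl
    rw [h2, ZMod.natCast_val]
  rw [h1, ZMod.natCast_eq_zero_iff]

private theorem add_zero_val [NeZero m] (hM : m = 2 * M) (a : ZMod m) :
    a + a = 0 ↔ M ∣ a.val := by
  have h1 : a + a = ((2 * a.val : ℕ) : ZMod m) := by
    rw [Nat.cast_mul, ZMod.natCast_val, ZMod.cast_id', id_eq]
    push_cast
    ring
  rw [h1, ZMod.natCast_eq_zero_iff]
  obtain ⟨k, hk⟩ : ∃ k : ℕ, k = a.val := ⟨_, rfl⟩
  rw [← hk, hM]
  exact Nat.mul_dvd_mul_iff_left (by norm_num)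

theorem pr_zero [NeZero m] (hM : m = 2 * M) (a : ZMod m) : pr hM a = 0 ↔ a + a = 0 := by
  rw [pr_zero_val, add_zero_val hM]

theorem two_tor [NeZero m] (hM : m = 2 * M) {a : ZMod m} (h : a + a = 0) : a = 0 ∨ a = (M : ZMod m) := by
  rw [add_zero_val hM] at h
  have h1 := ZMod.val_lt a
  obtain ⟨k, hk⟩ := h
  have hk2 : k < 2 := by
    by_contra hc
    have h2 : M * 2 ≤ M * k := Nat.mul_le_mul_left M (by omega)
    omega
  have h3 : a = ((a.val : ℕ) : ZMod m) := by
    rw [ZMod.natCast_val, ZMod.cast_id', id_eq]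
  interval_cases k
  · left
    rw [h3, hk, mul_zero, Nat.cast_zero]
  · right
    rw [h3, hk, mul_one]

theorem M_add (hM : m = 2 * M) : (M : ZMod m) + (M : ZMod m) = 0 := by
  have h1 := ZMod.natCast_self m
  have h2 : ((2 * M : ℕ) : ZMod m) = 0 := by rw [← hM]; exact h1
  push_cast at h2
  linear_combination h2

theorem M_ne [NeZero m] (hM : m = 2 * M) : (M : ZMod m) ≠ 0 := by
  intro h
  rw [ZMod.natCast_eq_zero_iff] at h
  have h0 : m ≠ 0 := NeZero.ne m
  have h1 := Nat.le_of_dvd (by omega) h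
  omega

theorem pr_surj (hM : m = 2 * M) : Function.Surjective (pr hM) := by
  intro b
  obtain ⟨a, ha⟩ := ZMod.castHom_surjective (Dvd.intro_left 2 hM.symm) b
  exact ⟨a, ha⟩

theorem index_comap [NeZero m] (hM : m = 2 * M) (H : AddSubgroup (ZMod M)) :
    (H.comap (pr hM)).index = H.index := by
  exact AddSubgroup.index_comap_of_surjective H (pr_surj hM)

theorem card_comap [NeZero m] (hM : m = 2 * M) (H : AddSubgroup (ZMod M)) :
    Nat.card (H.comap (pr hM)) = 2 * Nat.card H := by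
  have h0 : m ≠ 0 := NeZero.ne m
  have : NeZero M := ⟨by omega⟩
  have h1 := card_mul_index' (H.comap (pr hM))
  have h2 := card_mul_index' H
  rw [index_comap hM H] at h1
  have h3 : H.index ≠ 0 := AddSubgroup.index_ne_zero_of_finite
  refine Nat.eq_of_mul_eq_mul_right (Nat.pos_of_ne_zero h3) ?_
  rw [h1, mul_assoc, h2, hM]

theorem K_le_comap [NeZero m] (hM : m = 2 * M) (H : AddSubgroup (ZMod M)) (a : ZMod m) (h : a + a = 0) :
    a ∈ H.comap (pr hM) := by
  rw [AddSubgroup.mem_comap, (pr_zero hM a).2 h]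
  exact H.zero_mem

private theorem card_bot_comap [NeZero m] (hM : m = 2 * M) :
    Nat.card ((⊥ : AddSubgroup (ZMod M)).comap (pr hM)) = 2 := by
  rw [card_comap hM, AddSubgroup.card_bot, mul_one]

theorem mem_of_card2 [NeZero m] (hM : m = 2 * M) (K : AddSubgroup (ZMod m)) (hK : Nat.card K = 2)
    (a : ZMod m) : a ∈ K ↔ a + a = 0 := by
  have h1 : K = (⊥ : AddSubgroup (ZMod M)).comap (pr hM) :=
    sub_unique _ _ (by rw [hK, card_bot_comap hM])
  rw [h1, AddSubgroup.mem_comap, AddSubgroup.mem_bot, pr_zero hM]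

theorem exists_K [NeZero m] (hM : m = 2 * M) : ∃ K : AddSubgroup (ZMod m), Nat.card K = 2 := by
  exact ⟨_, card_bot_comap hM⟩

theorem even_idx [NeZero m] (hM : m = 2 * M) (H : AddSubgroup (ZMod m)) (hH : H.index = 2) (a : ZMod m) :
    a ∈ H ↔ ∃ b : ZMod m, a = b + b := by
  have hdbl : ∀ b : ZMod m, b + b ∈ H := fun b => AddSubgroup.add_self_mem_of_index_two hH b
  constructor
  · intro ha
    have h3 : a = ((a.val : ℕ) : ZMod m) := by
      rw [ZMod.natCast_val, ZMod.cast_id', id_eq]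
    rcases Nat.even_or_odd' a.val with ⟨k, hk | hk⟩
    · refine ⟨(k : ZMod m), ?_⟩
      rw [h3, hk]
      push_cast
      ring
    · exfalso
      have h1 : (1 : ZMod m) ∈ H := by
        have h4 : (1 : ZMod m) = a - ((k : ZMod m) + (k : ZMod m)) := by
          rw [h3, hk]
          push_cast
          ring
        rw [h4]
        exact H.sub_mem ha (hdbl _)
      have h5 : H = ⊤ := by
        rw [eq_top_iff]
        intro x _
        have h6 : x = x.val • (1 : ZMod m) := by
          rw [nsmul_eq_mul, mul_one, ZMod.natCast_val, ZMod.cast_id', id_eq]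
        rw [h6]
        exact H.nsmul_mem h1 _
      rw [h5, AddSubgroup.index_top] at hH
      exact absurd hH (by norm_num)
  · rintro ⟨b, rfl⟩
    exact hdbl b

theorem int_idx [NeZero m] (hM : m = 2 * M) (H : AddSubgroup (ZMod m)) (hH : H.index = 2) (k : ℤ) :
    (k : ZMod m) ∈ H ↔ (2 : ℤ) ∣ k := by
  rw [even_idx hM H hH]
  constructor
  · rintro ⟨b, hb⟩
    have h3 : b = ((b.val : ℤ) : ZMod m) := by
      rw [Int.cast_natCast, ZMod.natCast_val, ZMod.cast_id', id_eq]
    have h4 : ((k - 2 * (b.val : ℤ) : ℤ) : ZMod m) = 0 := by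
      rw [Int.cast_sub, Int.cast_mul, ← h3, hb]
      push_cast
      ring
    rw [ZMod.intCast_zmod_eq_zero_iff_dvd] at h4
    have h5 : (2 : ℤ) ∣ (m : ℤ) := ⟨(M : ℤ), by exact_mod_cast hM⟩
    have h6 := h5.trans h4
    omega
  · rintro ⟨j, rfl⟩
    refine ⟨(j : ZMod m), ?_⟩
    push_cast
    ring

theorem unit_idx [NeZero m] (hM : m = 2 * M) (H : AddSubgroup (ZMod m)) (hH : H.index = 2) (g : (ZMod m)ˣ)
    (a : ZMod m) : (g : ZMod m) * a ∈ H ↔ a ∈ H := by
  rw [even_idx hM H hH, even_idx hM H hH]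
  constructor
  · rintro ⟨b, hb⟩
    refine ⟨((g⁻¹ : (ZMod m)ˣ) : ZMod m) * b, ?_⟩
    rw [← mul_add, ← hb, ← mul_assoc, ← Units.val_mul, inv_mul_cancel, Units.val_one, one_mul]
  · rintro ⟨b, hb⟩
    exact ⟨(g : ZMod m) * b, by rw [hb, mul_add]⟩

end M3
end ZS44129
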