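import Pool.Agent.Work.MP_44129c_co.M3.Ker
import Pool.Agent.Work.MP_44129c_co.G.CosDeg

/-!
# MP_44129c_co/M3, MixA (size M): the double stars used for a mixed class modulo `K`

`e = |BK c w|`, `Y = (BK c w).erase y`, `A' = ((AK c w).erase x0).erase x1`.
PROOFS.  `mx_card`: `AK` and `BK` partition `univ.erase w`; `big`; `coset_deg` with `L = K` (`exists_K`, `mem_of_card2`, `r = 0`): `|AK| + 2 ≤ m + 2`, so `s ≤ |BK| + 1`.
`mx_av`: suppose `pr hM (S0) = 0` for `S0 = c w y + ∑_{Y \ J} c w b + ∑_P c y x`, i.e. `S0 + S0 = 0` (`pr_zero`).  Double stars with centre edge `w y`, leaves `P` at `y`, leaves at `w`: `Y \ J`, a subset `A1` of `A' \ P` with `m - e + |J| - |P| - 1` elements (`≥ 0` by `hPc`;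
`|A' \ P| = m + s - 1 - e - 2 - |P|`, enough because `|J| + 2 ≤ s`) and ONE of `x0`, `x1`: `1 + |P| + (e - 1 - |J|) + (m - e + |J| - |P| - 1) + 1 = m` edges.  The colour sums are `T = S0 + ∑_{A1} c w x + 0` and `T + M`; `T + T = 0` (all `c w x`, `x ∈ AK`, satisfy `c w x + c w x = 0`), so `T = 0` or `T = M`
(`two_tor`) and one of the two sums is `0` (`M_add`): contradiction to `ZSF`.
`mx_nc`: `Gen (dK …) F ⊥ H1` and `pr (c w y + ∑_{Y \ J} c w b) ∈ H1` give `T ⊆ F` with `∑_T dK = pr (c w y + ∑_{Y \ J} c w b)`.  `dK x = pr (c w x)` on `Y`, `= - pr (c y x)` on `P` (`P ⊆ PK`, `c w x ∈ K`).  Take `J' = J ∪ (T ∩ Y)` (`J`, `F` disjoint, `|J'| ≤ |J| + |F ∩ Y| ≤ s - 2`) and `P' = T ∩ P`: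
`pr (c w y + ∑_{Y \ J'} c w b + ∑_{P'} c y x) = 0`: contradiction to `mx_av` (`|P'| + e + 1 ≤ m + |J'|`).
-/

set_option autoImplicit false

namespace ZS44129
namespace M3

open Finset E W

variable {V : Type} [Fintype V] [DecidableEq V] {m : ℕ} {c : V → V → ZMod m} {s M : ℕ} {w x0 x1 : V}

theorem mx_card [NeZero m] (h : MX c s M w x0 x1) : (AK c w).card + (BK c w).card + 1 = m + s ∧
    (BK c w).card + 1 ≤ 2 * s ∧ s ≤ (BK c w).card + 1 := by
  have h1 : (AK c w).card + (BK c w).card = (univ.erase w).card := by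
    unfold AK BK
    exact Finset.card_filter_add_card_filter_not _
  have h2 : (univ.erase w).card + 1 = m + s := by
    rw [Finset.card_erase_add_one (Finset.mem_univ w), Finset.card_univ, h.card]
  obtain ⟨K, hK⟩ := exists_K h.hM
  have hm1 := h.m1
  have hs5 := h.s5
  have h3 := G.coset_deg c h.zsf w K (by rw [hK]; omega) 0
  have h4 : ∀ (inst : DecidablePred fun x => c w x - 0 ∈ K),
      @Finset.filter V (fun x => c w x - 0 ∈ K) inst (univ.erase w) = AK c w := by
    intro inst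
    ext x
    rw [Finset.mem_filter, mem_AK, Finset.mem_erase, sub_zero, mem_of_card2 h.hM K hK]
    exact ⟨fun h5 => ⟨h5.1.1, h5.2⟩, fun h5 => ⟨⟨h5.1, Finset.mem_univ x⟩, h5.2⟩⟩
  rw [hK, h4] at h3
  have hbig := h.big
  omega

theorem mx_av [NeZero m] (h : MX c s M w x0 x1) {y : V} (hy : y ∈ BK c w) (J : Finset V)
    (hJ : J ⊆ (BK c w).erase y) (hJc : J.card + 2 ≤ s) (P : Finset V)
    (hP : P ⊆ ((AK c w).erase x0).erase x1) (hPc : P.card + (BK c w).card + 1 ≤ m + J.card) :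
    pr h.hM (c w y + ∑ b ∈ (BK c w).erase y \ J, c w b + ∑ x ∈ P, c y x) ≠ 0 := by
  intro h0
  rw [pr_zero] at h0
  obtain ⟨hc1, hc2, hc3⟩ := mx_card h
  have hyw : y ≠ w := (mem_BK.1 hy).1
  have hx0A : x0 ∈ AK c w := mem_AK.2 ⟨h.x0w, by rw [h.c0, add_zero]⟩
  have hx1A : x1 ∈ AK c w := mem_AK.2 ⟨h.x1w, by rw [h.c1]; exact M_add h.hM⟩
  have hx01 : x1 ≠ x0 := by
    intro h1
    have h2 := h.c1
    rw [h1, h.c0] at h2
    exact M_ne h.hM h2.symm
  have hx1A' : x1 ∈ (AK c w).erase x0 := Finset.mem_erase.2 ⟨hx01, hx1A⟩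
  have k1 := Finset.card_erase_add_one hx0A
  have k2 := Finset.card_erase_add_one hx1A'
  have k3 := Finset.card_sdiff_add_card_eq_card hP
  have k4 := Finset.card_erase_add_one hy
  have k5 := Finset.card_sdiff_add_card_eq_card hJ
  obtain ⟨A1, hA1, hA1c⟩ := Finset.exists_subset_card_eq
    (s := (((AK c w).erase x0).erase x1) \ P) (n := m + J.card - P.card - (BK c w).card - 1) (by omega)
  have hA1' : ∀ x ∈ A1, x ∈ AK c w ∧ x ≠ x0 ∧ x ≠ x1 ∧ x ∉ P := by
    intro x hx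
    have h1 := Finset.mem_sdiff.1 (hA1 hx)
    have h2 := Finset.mem_erase.1 h1.1
    have h3 := Finset.mem_erase.1 h2.2
    exact ⟨h3.2, h3.1, h2.1, h1.2⟩
  have hPA : ∀ x ∈ P, x ∈ AK c w ∧ x ≠ x0 ∧ x ≠ x1 := by
    intro x hx
    have h2 := Finset.mem_erase.1 (hP hx)
    have h3 := Finset.mem_erase.1 h2.2
    exact ⟨h3.2, h3.1, h2.1⟩
  have hdisj : ∀ x, x ∈ AK c w → x ∈ BK c w → False := fun x h1 h2 => (mem_BK.1 h2).2 (mem_AK.1 h1).2
  have hYJ : ∀ x ∈ (BK c w).erase y \ J, x ∈ BK c w ∧ x ≠ y := by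
    intro x hx
    have h1 := Finset.mem_erase.1 (Finset.mem_sdiff.1 hx).1
    exact ⟨h1.2, h1.1⟩
  have hd1 : Disjoint ((BK c w).erase y \ J) A1 := by
    rw [Finset.disjoint_left]
    intro x h1 h2
    exact hdisj x (hA1' x h2).1 (hYJ x h1).1
  have key : ∀ x' ∈ AK c w, (x' = x0 ∨ x' = x1) →
      c w y + ∑ b ∈ (BK c w).erase y \ J, c w b + ∑ x ∈ P, c y x + ∑ x ∈ A1, c w x + c w x' ≠ 0 := by
    intro x' hx' hx''
    have hx'1 : x' ∉ A1 := by
      intro h1
      have h2 := hA1' x' h1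
      rcases hx'' with h3 | h3
      · exact h2.2.1 h3
      · exact h2.2.2.1 h3
    have hx'2 : x' ∉ P := by
      intro h1
      have h2 := hPA x' h1
      rcases hx'' with h3 | h3
      · exact h2.2.1 h3
      · exact h2.2.2 h3
    have hx'3 : x' ∉ ((BK c w).erase y \ J) ∪ A1 := by
      rw [Finset.mem_union]
      rintro (h1 | h1)
      · exact hdisj x' hx' (hYJ x' h1).1
      · exact hx'1 h1
    have h1 := h.zsf w y hyw.symm (insert x' (((BK c w).erase y \ J) ∪ A1)) P (by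
        rw [Finset.disjoint_left]
        intro x hx hxP
        rcases Finset.mem_insert.1 hx with h2 | h2
        · rw [h2] at hxP
          exact hx'2 hxP
        · rcases Finset.mem_union.1 h2 with h3 | h3
          · exact hdisj x (hPA x hxP).1 (hYJ x h3).1
          · exact (hA1' x h3).2.2.2 hxP) (by
        intro hx
        rcases Finset.mem_insert.1 hx with h2 | h2
        · exact (mem_AK.1 hx').1 h2.symm
        · rcases Finset.mem_union.1 h2 with h3 | h3
          · exact (mem_BK.1 (hYJ w h3).1).1 rfl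
          · exact (mem_AK.1 (hA1' w h3).1).1 rfl) (by
        intro hx
        rcases Finset.mem_insert.1 hx with h2 | h2
        · rw [← h2] at hx'
          exact hdisj y hx' hy
        · rcases Finset.mem_union.1 h2 with h3 | h3
          · exact (hYJ y h3).2 rfl
          · exact hdisj y (hA1' y h3).1 hy) (by
        intro hx
        exact (mem_AK.1 (hPA w hx).1).1 rfl) (by
        intro hx
        exact hdisj y (hPA y hx).1 hy) (by
        rw [Finset.card_insert_of_notMem hx'3, Finset.card_union_of_disjoint hd1, hA1c]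
        omega)
    rw [Finset.sum_insert hx'3, Finset.sum_union hd1] at h1
    intro h2
    apply h1
    rw [← h2]
    abel
  have hT1 : ∑ x ∈ A1, c w x + ∑ x ∈ A1, c w x = 0 := by
    rw [← Finset.sum_add_distrib]
    exact Finset.sum_eq_zero fun x hx => (mem_AK.1 (hA1' x hx).1).2
  have hTT : (c w y + ∑ b ∈ (BK c w).erase y \ J, c w b + ∑ x ∈ P, c y x + ∑ x ∈ A1, c w x) +
      (c w y + ∑ b ∈ (BK c w).erase y \ J, c w b + ∑ x ∈ P, c y x + ∑ x ∈ A1, c w x) = 0 := by
    rw [add_add_add_comm, h0, hT1, add_zero]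
  rcases two_tor h.hM hTT with h1 | h1
  · refine key x0 hx0A (Or.inl rfl) ?_
    rw [h1, h.c0, add_zero]
  · refine key x1 hx1A (Or.inr rfl) ?_
    rw [h1, h.c1]
    exact M_add h.hM

theorem mx_nc [NeZero m] (h : MX c s M w x0 x1) {y : V} (hy : y ∈ BK c w) (P : Finset V)
    (hP : P ⊆ PK c w x0 x1 y) (hPc : P.card + (BK c w).card + 1 ≤ m) (F : Finset V)
    (hF : F ⊆ P ∪ (BK c w).erase y) (J : Finset V) (hJ : J ⊆ (BK c w).erase y) (hJF : Disjoint J F)
    (hFc : (F ∩ (BK c w).erase y).card + J.card + 2 ≤ s) (H1 : AddSubgroup (ZMod M))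
    (hG : Gen (dK h.hM c w y) F ⊥ H1)
    (h0 : pr h.hM (c w y + ∑ b ∈ (BK c w).erase y \ J, c w b) ∈ H1) : False := by
  obtain ⟨g, hg, hg0⟩ := hG _ h0
  rw [AddSubgroup.mem_bot, sub_eq_zero] at hg0
  obtain ⟨T, hT, hTg⟩ := mem_cube.1 hg
  have hdisj : ∀ x, x ∈ AK c w → x ∈ BK c w → False := fun x h1 h2 => (mem_BK.1 h2).2 (mem_AK.1 h1).2
  have hPA : ∀ x ∈ P, x ∈ AK c w ∧ x ≠ x0 ∧ x ≠ x1 := by
    intro x hx
    have h1 := mem_PK.1 (hP hx)
    exact ⟨h1.1, h1.2.1, h1.2.2.1⟩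
  have hTYsub : T ∩ (BK c w).erase y ⊆ (BK c w).erase y \ J := by
    intro x hx
    rw [Finset.mem_inter] at hx
    exact Finset.mem_sdiff.2 ⟨hx.2, fun h1 => Finset.disjoint_left.1 hJF h1 (hT hx.1)⟩
  have hTP : T \ (BK c w).erase y ⊆ P := by
    intro x hx
    rw [Finset.mem_sdiff] at hx
    rcases Finset.mem_union.1 (hF (hT hx.1)) with h1 | h1
    · exact h1
    · exact absurd h1 hx.2
  have e1 : (BK c w).erase y \ (J ∪ (T ∩ (BK c w).erase y)) =
      ((BK c w).erase y \ J) \ (T ∩ (BK c w).erase y) := by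
    ext x
    simp only [Finset.mem_union, Finset.mem_sdiff, Finset.mem_inter]
    tauto
  have e2 := Finset.sum_sdiff (f := fun b => c w b) hTYsub
  have e3 : ∑ x ∈ T, dK h.hM c w y x = pr h.hM (∑ b ∈ T ∩ (BK c w).erase y, c w b) -
      pr h.hM (∑ x ∈ T \ (BK c w).erase y, c y x) := by
    rw [← Finset.sum_inter_add_sum_sdiff T ((BK c w).erase y), map_sum, map_sum, sub_eq_add_neg,
      ← Finset.sum_neg_distrib]
    congr 1
    · refine Finset.sum_congr rfl fun x hx => ?_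
      unfold dK
      rw [if_neg (mem_BK.1 (Finset.mem_of_mem_erase (Finset.mem_inter.1 hx).2)).2]
    · refine Finset.sum_congr rfl fun x hx => ?_
      unfold dK
      rw [if_pos (mem_AK.1 (hPA x (hTP hx)).1).2]
  have hJc : (J ∪ (T ∩ (BK c w).erase y)).card + 2 ≤ s := by
    have k1 := Finset.card_union_le J (T ∩ (BK c w).erase y)
    have k2 : (T ∩ (BK c w).erase y).card ≤ (F ∩ (BK c w).erase y).card :=
      Finset.card_le_card (Finset.inter_subset_inter_right hT)
    omega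
  refine mx_av h hy (J ∪ (T ∩ (BK c w).erase y)) ?_ hJc (T \ (BK c w).erase y) ?_ ?_ ?_
  · exact Finset.union_subset hJ Finset.inter_subset_right
  · intro x hx
    have h1 := hPA x (hTP hx)
    exact Finset.mem_erase.2 ⟨h1.2.2, Finset.mem_erase.2 ⟨h1.2.1, h1.1⟩⟩
  · have k1 := Finset.card_le_card hTP
    omega
  · rw [e1, map_add, map_add]
    rw [← hTg, e3, ← e2, map_add, map_add] at hg0
    have h5 : pr h.hM (c w y) + pr h.hM (∑ b ∈ ((BK c w).erase y \ J) \ (T ∩ (BK c w).erase y), c w b) =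
        - pr h.hM (∑ x ∈ T \ (BK c w).erase y, c y x) := by
      have h6 := hg0
      rw [← add_assoc] at h6
      linear_combination (exp := 1) h6
    rw [h5]
    abel

end M3
end ZS44129
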