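import Pool.Agent.Work.MP_44129c_co.M3.MixA
import Pool.Agent.Work.MP_44129c_co.M3.MixC
import Pool.Agent.Work.MP_44129c_co.M3.PPM

/-!
# MP_44129c_co/M3, MixR (size L): the roots of a mixed class modulo `K` with many slots

PROOF of `mix_root`.  `Y = (BK c w).erase y`, `e = |BK|`, `e ≤ 2 s - 1`, `|Y| = e - 1 ≥ s - 2`.  `|P| = M + 1 - s`, so `|P| + e + 1 ≤ M + 1 + s ≤ m` (`s + 1 ≤ M` because `2 M ≥ 3 s - 2`, `s ≥ 5`).
`ppM` in `ZMod M` with `P`, `Y`, `d = dK h.hM c w y` (nonzero on `P`: `PK`, `pr_zero`; on `Y`: `BK`), `hno`: `mx_nc` with `J = ∅`, `H1 = ⊤`.  It gives `H1`, `F1`; `h̄ = |H1| ≥ 2`, `j = H1.index ≥ 2`, `h̄ j = M`; `k = #(Y \ H1)`, `p = #(P \ H1)`, `|F1 ∩ Y| + k + 2 ≤ s`, `p + k + 2 ≤ j`.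
Let `H = H1.comap (pr h.hM)`, `h = |H| = 2 h̄` (`card_comap`), `H.index = j`, `h j = m`, `K ⊆ H`.  On `Y`: `dK b ∈ H1 ↔ c w b ∈ H`; on `P`: `dK x ∈ H1 ↔ c y x ∈ H`: `k = #(outK (c w) Y H)`, `p = #(outK (c y) P H)`.
(1) `c w y ∉ H`: otherwise `mx_nc` with `J = outK (c w) Y H` (disjoint from `F1`) and `F = F1`: `c w y + ∑_{Y \ J} c w b ∈ H`.
(2) `j = 2`: `p = k = 0`: first alternative.
(3) `j = 3`: `3 h = m`, so `m = 3 s` (`3 s - 2 ≤ m ≤ 3 s + 2`): second alternative.
(4) `j ≥ 4`.  `coset_deg` (`L = H`, `r = 0`, `2 h ≤ m`): at most `m + h - 2` vertices `x ≠ w` have `c w x ∈ H`, so at least `s + 1 - h` have not, they are in `BK` (`K ⊆ H`), so `s ≤ h + k`.  Hence `p + (s - h) + 2 ≤ j`.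
    `P ∩ H := {x ∈ P : c y x ∈ H}` has `|P| - p ≥ (M + 1 - s) - (j - 2 - (s - h)) = M + 3 - h - j` elements; `mx_core` (`3 h ≤ m`): `E`, `|E| ≤ h - 2`.  `M + 3 - h - j > h - 2`: `M + 5 - 2 h - j = h̄ j + 5 - 4 h̄ - j = (h̄ - 1)(j - 4) + 1 > 0`.  So some `x ∈ P`, `x ∉ E`, has `c y x ∈ H`:
    `s + 1 ≤ h + #{z ∈ BK : c w z ∉ H, c x z ∉ H}`, `y` is not one of these `z` (`c x y = c y x ∈ H`), so `s + 1 ≤ h + k`.  With `p + k + 2 ≤ j`: `s + 3 + p ≤ h + j`; `(h - 3)(j - 3) = m - 3 (h + j) + 9 ≤ m - 3 s - 3 p ≤ 2 - 3 p` (over `ℤ`), `h ≥ 4` even, `j ≥ 4`: `(h - 3)(j - 3) ≥ 1`, so `p = 0` and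
    `(h, j) = (4, 4)`: `m = 16`, `s + 3 ≤ 8` and `m ≤ 3 s + 2`: `s = 5`, and `k ≤ j - 2 = 2`, `k ≥ s + 1 - h = 2`: third alternative; or `(4, 5)`: `m = 20`, `s + 3 ≤ 9`, `m ≤ 3 s + 2`: `s = 6`: excluded by `h20`.  (`(5, 4)`: `h` is even.)
PROOF of `mix_r`.  `e` as above.  Choose `P ⊆ PK` with `M + 1 - s` elements (`≥ 3`: `2 M ≥ 3 s - 2`, `m` even, `s ≥ 5`), such that:
 * if `m = 3 s`: `P` contains two elements `x` of `PK` with `c y x ∉ Q` if there are two, where `Q` is the subgroup of index 3 (unique: `sub_index_unique`; if there is no subgroup of index 3 nothing is needed);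
 * if `m = 16` (then `m ≠ 3 s`): `P` contains one element with `c y x ∉ P4` if there is one, `P4` = the subgroup with 4 elements (`sub_unique`).
Apply `mix_root`.  Index 2: clear.  Index 3: by the choice of `P` at most one `x ∈ PK` has `c y x ∉ H` and if there is one it is in `P`?  (If exactly one element of `PK` is outside, put it into `P`.)  So `#(outK (c y) (PK …) H) = #(outK (c y) P H)` when this number is `≤ 1`.  Order 4: no element of `PK` is outside `H`.
-/

set_option autoImplicit false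

namespace ZS44129
namespace M3

open Finset E W

variable {V : Type} [Fintype V] [DecidableEq V] {m : ℕ} {c : V → V → ZMod m} {s M : ℕ} {w x0 x1 : V}

private theorem PK_AK {y x : V} (hx : x ∈ PK c w x0 x1 y) : x ∈ AK c w := (mem_PK.1 hx).1

private theorem dK_P {M : ℕ} (hM : m = 2 * M) {y x : V} (hx : x ∈ PK c w x0 x1 y) :
    dK hM c w y x = - pr hM (c y x) := by
  unfold dK
  rw [if_pos (mem_AK.1 (PK_AK hx)).2]

private theorem dK_Y {M : ℕ} (hM : m = 2 * M) {y b : V} (hb : b ∈ BK c w) :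
    dK hM c w y b = pr hM (c w b) := by
  unfold dK
  rw [if_neg (mem_BK.1 hb).2]

theorem mix_root [NeZero m] (h : MX c s M w x0 x1) {y : V} (hy : y ∈ BK c w) (P : Finset V)
    (hP : P ⊆ PK c w x0 x1 y) (hPc : P.card + s = M + 1) :
    ∃ H : AddSubgroup (ZMod m), (∀ a : ZMod m, a + a = 0 → a ∈ H) ∧ c w y ∉ H ∧
      ((H.index = 2 ∧ (∀ x ∈ P, c y x ∈ H) ∧ ∀ b ∈ (BK c w).erase y, c w b ∈ H) ∨
       (m = 3 * s ∧ H.index = 3 ∧
          (outK (c y) P H).card + (outK (c w) ((BK c w).erase y) H).card ≤ 1) ∨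
       (m = 16 ∧ s = 5 ∧ Nat.card H = 4 ∧ (∀ x ∈ P, c y x ∈ H) ∧
          (outK (c w) ((BK c w).erase y) H).card = 2)) := by
  have hM := h.hM
  have h5 := h.s5
  have hm1 := h.m1
  have hm2 := h.m2
  have h20 := h.h20
  obtain ⟨hc1, hc2, hc3⟩ := mx_card h
  have hYc : ((BK c w).erase y).card + 1 = (BK c w).card := Finset.card_erase_add_one hy
  haveI : NeZero M := ⟨by omega⟩
  have hdis : Disjoint P ((BK c w).erase y) := by
    rw [Finset.disjoint_left]
    intro x h1 h2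
    exact (mem_BK.1 (Finset.mem_of_mem_erase h2)).2 (mem_AK.1 (PK_AK (hP h1))).2
  have hd : ∀ i ∈ P ∪ (BK c w).erase y, dK h.hM c w y i ≠ 0 := by
    intro i hi
    rcases Finset.mem_union.1 hi with h1 | h1
    · rw [dK_P h.hM (hP h1), neg_ne_zero]
      intro h2
      exact (mem_PK.1 (hP h1)).2.2.2 ((pr_zero h.hM _).1 h2)
    · have h2 := Finset.mem_of_mem_erase h1
      rw [dK_Y h.hM h2]
      intro h3
      exact (mem_BK.1 h2).2 ((pr_zero h.hM _).1 h3)
  have hPe : P.card + (BK c w).card + 1 ≤ m := by omega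
  obtain ⟨H1, F1, hb, ht, hF1, hF1H, hG, hk, hj⟩ := ppM (s := s) (by omega) (by omega) (by omega)
    (by omega) P ((BK c w).erase y) hdis (dK h.hM c w y) hd (by omega) (by omega) (by
      intro F hF hFc hG
      exact mx_nc h hy P hP hPe F hF ∅ (Finset.empty_subset _) (Finset.disjoint_empty_left _)
        (by simpa using hFc) ⊤ hG (AddSubgroup.mem_top _))
  have hKH : ∀ a : ZMod m, a + a = 0 → a ∈ H1.comap (pr h.hM) := K_le_comap h.hM H1
  have hmY : ∀ b ∈ BK c w, (dK h.hM c w y b ∈ H1 ↔ c w b ∈ H1.comap (pr h.hM)) := by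
    intro b hb
    rw [dK_Y h.hM hb, AddSubgroup.mem_comap]
  have hmP : ∀ x ∈ P, (dK h.hM c w y x ∈ H1 ↔ c y x ∈ H1.comap (pr h.hM)) := by
    intro x hx
    rw [dK_P h.hM (hP hx), AddSubgroup.mem_comap, neg_mem_iff]
  have hoY : outK (dK h.hM c w y) ((BK c w).erase y) H1 =
      outK (c w) ((BK c w).erase y) (H1.comap (pr h.hM)) := by
    ext b
    rw [mem_outK, mem_outK]
    constructor
    · rintro ⟨h1, h2⟩
      exact ⟨h1, fun h3 => h2 ((hmY b (Finset.mem_of_mem_erase h1)).2 h3)⟩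
    · rintro ⟨h1, h2⟩
      exact ⟨h1, fun h3 => h2 ((hmY b (Finset.mem_of_mem_erase h1)).1 h3)⟩
  have hoP : outK (dK h.hM c w y) P H1 = outK (c y) P (H1.comap (pr h.hM)) := by
    ext b
    rw [mem_outK, mem_outK]
    constructor
    · rintro ⟨h1, h2⟩
      exact ⟨h1, fun h3 => h2 ((hmP b h1).2 h3)⟩
    · rintro ⟨h1, h2⟩
      exact ⟨h1, fun h3 => h2 ((hmP b h1).1 h3)⟩
  rw [hoY] at hk hj
  rw [hoP] at hj
  have hidx : (H1.comap (pr h.hM)).index = H1.index := index_comap h.hM H1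
  have hcard : Nat.card (H1.comap (pr h.hM)) = 2 * Nat.card H1 := card_comap h.hM H1
  have hmul := card_mul_index' (H1.comap (pr h.hM))
  rw [← hidx] at hj
  -- (1)
  have hcy : c w y ∉ H1.comap (pr h.hM) := by
    intro hcy
    refine mx_nc h hy P hP hPe F1 hF1 (outK (c w) ((BK c w).erase y) (H1.comap (pr h.hM)))
      (fun b hb => (mem_outK.1 hb).1) ?_ hk H1 hG ?_
    · rw [Finset.disjoint_left]
      intro b h1 h2
      obtain ⟨h3, h4⟩ := mem_outK.1 h1
      exact h4 ((hmY b (Finset.mem_of_mem_erase h3)).1 (hF1H b h2))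
    · have h1 : c w y + ∑ b ∈ (BK c w).erase y \
          outK (c w) ((BK c w).erase y) (H1.comap (pr h.hM)), c w b ∈ H1.comap (pr h.hM) := by
        refine add_mem hcy (sum_mem fun b hb => ?_)
        obtain ⟨h2, h3⟩ := Finset.mem_sdiff.1 hb
        by_contra h4
        exact h3 (mem_outK.2 ⟨h2, h4⟩)
      exact AddSubgroup.mem_comap.1 h1
  refine ⟨H1.comap (pr h.hM), hKH, hcy, ?_⟩
  set H : AddSubgroup (ZMod m) := H1.comap (pr h.hM) with hHdef
  have hb2 : 2 ≤ Nat.card H1 := by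
    have h1 : Nat.card H1 ≠ 1 := fun h1 => hb (AddSubgroup.card_eq_one.1 h1)
    have h2 : 0 < Nat.card H1 := Nat.card_pos
    omega
  have hj2 : 2 ≤ H.index := by omega
  rcases Nat.lt_or_ge H.index 4 with hj4 | hj4
  · have hj23 : H.index = 2 ∨ H.index = 3 := by omega
    rcases hj23 with hj23 | hj23
    · left
      refine ⟨hj23, fun x hx => ?_, fun b hb => ?_⟩
      · by_contra h1
        have h2 : x ∈ outK (c y) P H := mem_outK.2 ⟨hx, h1⟩
        have h3 := Finset.card_pos.2 ⟨x, h2⟩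
        omega
      · by_contra h1
        have h2 : b ∈ outK (c w) ((BK c w).erase y) H := mem_outK.2 ⟨hb, h1⟩
        have h3 := Finset.card_pos.2 ⟨b, h2⟩
        omega
    · right
      left
      rw [hj23] at hmul
      exact ⟨by omega, hj23, by omega⟩
  · right
    right
    have hmul4 : Nat.card H * 4 ≤ m :=
      (Nat.mul_le_mul_left _ hj4).trans (le_of_eq hmul)
    -- (4)
    have hcd : s ≤ Nat.card H + (outK (c w) ((BK c w).erase y) H).card := by
      classical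
      have h1 := G.coset_deg c h.zsf w H (by omega) 0
      have h2 := Finset.card_filter_add_card_filter_not (s := univ.erase w)
        (fun x => c w x - 0 ∈ H)
      have h3 : (univ.erase w).card + 1 = m + s := by
        rw [Finset.card_erase_add_one (Finset.mem_univ w), Finset.card_univ, h.card]
      have h4 : (univ.erase w).filter (fun x => ¬ (c w x - 0 ∈ H)) ⊆
          insert y (outK (c w) ((BK c w).erase y) H) := by
        intro x hx
        rw [Finset.mem_filter, Finset.mem_erase, sub_zero] at hx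
        rw [Finset.mem_insert]
        by_cases hxy : x = y
        · exact Or.inl hxy
        · right
          rw [mem_outK, Finset.mem_erase, mem_BK]
          exact ⟨⟨hxy, hx.1.1, fun h5 => hx.2 (hKH _ h5)⟩, hx.2⟩
      have h5 := (Finset.card_le_card h4).trans (Finset.card_insert_le _ _)
      have h1' : ((univ.erase w).filter (fun x => c w x - 0 ∈ H)).card + 2 ≤ m + Nat.card H :=
        h1
      omega
    obtain ⟨E, hE, hEc, hEx⟩ := mx_core h H hKH (by omega)
    have hmid : Nat.card H1 * H.index = M := by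
      have h1 : 2 * (Nat.card H1 * H.index) = 2 * M := by
        rw [← mul_assoc, ← hcard, hmul, hM]
      omega
    have hcount : 4 * Nat.card H1 + H.index < Nat.card H1 * H.index + 5 := by
      obtain ⟨a, ha⟩ := Nat.exists_eq_add_of_le hb2
      obtain ⟨b, hb⟩ := Nat.exists_eq_add_of_le hj4
      rw [ha, hb]
      nlinarith [Nat.zero_le (a * b)]
    obtain ⟨x, hxP, hxH, hxE⟩ : ∃ x ∈ P, c y x ∈ H ∧ x ∉ E := by
      by_contra hcon
      push Not at hcon
      have h1 : P ⊆ E ∪ outK (c y) P H := by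
        intro x hx
        rw [Finset.mem_union, mem_outK]
        by_cases h2 : c y x ∈ H
        · exact Or.inl (hcon x hx h2)
        · exact Or.inr ⟨hx, h2⟩
      have h2 := (Finset.card_le_card h1).trans (Finset.card_union_le _ _)
      rw [hmid] at hcount
      omega
    have hxA : x ∈ ((AK c w).erase x0).erase x1 := by
      obtain ⟨h1, h2, h3, _⟩ := mem_PK.1 (hP hxP)
      rw [Finset.mem_erase, Finset.mem_erase]
      exact ⟨h3, h2, h1⟩
    have h1 := hEx x hxA hxE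
    have h2 : outK (fun z => c x z) (outK (c w) (BK c w) H) H ⊆
        outK (c w) ((BK c w).erase y) H := by
      intro z hz
      rw [mem_outK, mem_outK] at hz
      rw [mem_outK, Finset.mem_erase]
      refine ⟨⟨?_, hz.1.1⟩, hz.1.2⟩
      rintro rfl
      exact hz.2 (by rw [h.sym]; exact hxH)
    have h3 := Finset.card_le_card h2
    have h4 : s + 3 + (outK (c y) P H).card ≤ Nat.card H + H.index := by omega
    have h6 : Nat.card H = 4 ∧ (H.index = 4 ∨ H.index = 5) ∧ (outK (c y) P H).card = 0 := by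
      obtain ⟨a, ha⟩ := Nat.exists_eq_add_of_le hb2
      obtain ⟨b, hb⟩ := Nat.exists_eq_add_of_le hj4
      have h7 : Nat.card H = 4 + 2 * a := by rw [hcard, ha]; ring
      have h8 : (4 + 2 * a) * (4 + b) = m := by rw [← h7, ← hb]; exact hmul
      have h9 : (4 + 2 * a) * (4 + b) = 16 + 8 * a + 4 * b + 2 * (a * b) := by ring
      have h10 : a = 0 := by
        by_contra h10
        have h11 : b ≤ a * b := Nat.le_mul_of_pos_left b (Nat.pos_of_ne_zero h10)
        omega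
      subst h10
      omega
    obtain ⟨h7, h8, h9⟩ := h6
    have h10 : 4 * H.index = m := by
      have h12 := hmul
      rw [h7] at h12
      exact h12
    have h11 : ∀ x ∈ P, c y x ∈ H := by
      intro x hx
      by_contra h12
      have h13 := Finset.card_pos.2 ⟨x, mem_outK.2 ⟨hx, h12⟩⟩
      omega
    exact ⟨by omega, by omega, h7, h11, by omega⟩

private theorem mix_sel [NeZero m] (h : MX c s M w x0 x1) {y : V}
    (hP : M + 1 ≤ (PK c w x0 x1 y).card + s) (O : Finset V) (hO : O ⊆ PK c w x0 x1 y) :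
    ∃ P ⊆ PK c w x0 x1 y, P.card + s = M + 1 ∧ min 2 O.card ≤ (P ∩ O).card := by
  have hM := h.hM
  have h5 := h.s5
  have hm1 := h.m1
  obtain ⟨O', hO', hO'c⟩ := Finset.exists_subset_card_eq (Nat.min_le_right 2 O.card)
  obtain ⟨P, hOP, hPP, hPc⟩ := Finset.exists_subsuperset_card_eq (hO'.trans hO)
    (n := M + 1 - s) (by omega) (by omega)
  refine ⟨P, hPP, by omega, ?_⟩
  rw [← hO'c]
  exact Finset.card_le_card (Finset.subset_inter hOP hO')

theorem mix_r [NeZero m] (h : MX c s M w x0 x1) {y : V} (hy : y ∈ BK c w)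
    (hP : M + 1 ≤ (PK c w x0 x1 y).card + s) :
    ∃ H : AddSubgroup (ZMod m), (∀ a : ZMod m, a + a = 0 → a ∈ H) ∧ c w y ∉ H ∧
      ((H.index = 2 ∧ (∃ x ∈ PK c w x0 x1 y, c y x ∈ H) ∧
          ∀ b ∈ (BK c w).erase y, c w b ∈ H) ∨
       (m = 3 * s ∧ H.index = 3 ∧
          (outK (c y) (PK c w x0 x1 y) H).card + (outK (c w) ((BK c w).erase y) H).card ≤ 1) ∨
       (m = 16 ∧ s = 5 ∧ Nat.card H = 4 ∧ (∀ x ∈ PK c w x0 x1 y, c y x ∈ H) ∧
          (outK (c w) ((BK c w).erase y) H).card = 2)) := by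
  by_cases hQ : ∃ Q : AddSubgroup (ZMod m), (m = 3 * s ∧ Q.index = 3) ∨ (m = 16 ∧ Nat.card Q = 4)
  · obtain ⟨Q, hQ⟩ := hQ
    obtain ⟨P, hPP, hPc, hPO⟩ := mix_sel h hP (outK (c y) (PK c w x0 x1 y) Q)
      (fun x hx => (mem_outK.1 hx).1)
    obtain ⟨H, hKH, hcy, hH⟩ := mix_root h hy P hPP hPc
    have hPO2 : P ∩ outK (c y) (PK c w x0 x1 y) Q ⊆ outK (c y) P Q := by
      intro x hx
      rw [Finset.mem_inter, mem_outK] at hx
      exact mem_outK.2 ⟨hx.1, hx.2.2⟩
    have hPO3 := Finset.card_le_card hPO2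
    refine ⟨H, hKH, hcy, ?_⟩
    rcases hH with ⟨k1, k2, k3⟩ | ⟨h1, h2, h3⟩ | ⟨h1, h2, h3, h4, h5⟩
    · have hsx := h.s5
      have hM := h.hM
      have hm1 := h.m1
      obtain ⟨x, hx⟩ := Finset.card_pos.1 (show 0 < P.card by omega)
      exact Or.inl ⟨k1, ⟨x, hPP hx, k2 x hx⟩, k3⟩
    · right
      left
      have hQH : Q = H := by
        rcases hQ with ⟨_, h4⟩ | ⟨h4, _⟩
        · exact sub_index_unique Q H (h4.trans h2.symm)
        · omega
      rw [hQH] at hPO hPO3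
      refine ⟨h1, h2, ?_⟩
      omega
    · right
      right
      have hQH : Q = H := by
        rcases hQ with ⟨h6, _⟩ | ⟨_, h6⟩
        · omega
        · exact sub_unique Q H (h6.trans h3.symm)
      rw [hQH] at hPO hPO3
      have h6 : (outK (c y) P H).card = 0 := by
        rw [Finset.card_eq_zero]
        apply Finset.eq_empty_of_forall_notMem
        intro x hx
        obtain ⟨h7, h8⟩ := mem_outK.1 hx
        exact h8 (h4 x h7)
      refine ⟨h1, h2, h3, ?_, h5⟩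
      intro x hx
      by_contra h7
      have h8 := Finset.card_pos.2 ⟨x, mem_outK.2 ⟨hx, h7⟩⟩
      omega
  · obtain ⟨P, hPP, hPc, _⟩ := mix_sel h hP ∅ (Finset.empty_subset _)
    obtain ⟨H, hKH, hcy, hH⟩ := mix_root h hy P hPP hPc
    refine ⟨H, hKH, hcy, ?_⟩
    rcases hH with ⟨k1, k2, k3⟩ | ⟨h1, h2, h3⟩ | ⟨h1, h2, h3, h4, h5⟩
    · have hsx := h.s5
      have hM := h.hM
      have hm1 := h.m1
      obtain ⟨x, hx⟩ := Finset.card_pos.1 (show 0 < P.card by omega)
      exact Or.inl ⟨k1, ⟨x, hPP hx, k2 x hx⟩, k3⟩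
    · exact absurd ⟨H, Or.inl ⟨h1, h2⟩⟩ hQ
    · exact absurd ⟨H, Or.inr ⟨h1, h3⟩⟩ hQ

end M3
end ZS44129
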