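import Pool.Agent.Work.MP_44129c_co.M3.Ker
import Pool.Agent.Work.MP_44129c_co.M3.Rho

/-!
# MP_44129c_co/M3, Per (size L): periodic `W`-cubes for even `m`

Compare W/AperO (`per_data`, same beginning: `lemPP` with `r = s - 1`, `hno` = `no_top`).  `Y = (BB c w).erase y`, `δ = dlt c w y`, `e = |BB| ≤ 2 s - 1`, `|P0| = μ ≥ M + 2 - s`, `μ + e ≤ m`, `XK ⊆ X0`.  All `δ i` (`i ∈ P0 ∪ Y`) are not in `K` (`kb`, `XK`).
`|F0| = s - 1 + μ ≥ M + 1`, so `2 |F0| ≥ m + 1`.
PROOF.  `lemPP` gives `H1`, `F1`; `h = |H1| ≥ 2`, `j = H1.index ≥ 2`, `h j = m = 2 M`, `ρ = |F1 ∩ Y| ≤ |F1| ≤ h - 1`, `p = #(P0 \ H1)`, `k = #(Y \ H1)`: `p + min (s - 1 - ρ, k) + 2 ≤ j`.  `coset_w` (`2 h ≤ m`): `s + 1 ≤ h + #(BB \ H1) ≤ h + k + 1`, i.e. `s ≤ h + k`.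
`rho_bd` and the last property of `lemPP`: `2 (ρ + 1) ≤ h` or `ρ + 1 + (μ - p) ≤ h` (`#(P0 ∩ H1) = μ - p`).
(1) `h ≠ 2`: otherwise `H1` is the set of `a` with `a + a = 0` (`mem_of_card2`), no `δ i`, `i ∈ F1`, is in it, so `F1 = ∅`, whose cube is `{0}`, but it fills `H1`.  So `h ≥ 3`.
(2) `j = 2`: `h = M`.  `p = 0` and `min (s - 1 - ρ, k) = 0`.  `ρ ≤ s - 2`: first alternative: `2 ρ ≤ M - 2 ≤ 2 s - 4` (`M ≤ 2 s - 2`: `2 M ≤ 3 s + 2 ≤ 4 s - 4` for `s ≥ 6`; `s = 5`: `2 M ≤ 17`, so `M ≤ 8`); second: `ρ + 1 + μ ≤ M`, `μ ≥ M + 2 - s`.  So `k = 0`.  `c w y ∉ H1`: `no_coset` with `J = ∅`, `F = F1`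
    (`ρ + 0 + 1 ≤ s`; all `c w b`, `b ∈ Y`, are in `H1`).  This is the first type (`H = H1`); `p = 0`: `c y x ∈ H1` for `x ∈ P0`.
(3) `j ≥ 3`, `h ≥ 3`.  CLAIM: `ρ + j ≤ s + p`.  Suppose `s + p + 1 ≤ ρ + j`.  If `2 (ρ + 1) ≤ h`: `2 (s + p + 2) ≤ h + 2 j`.  For `h = 3`: `ρ = 0`, `j ≥ s + 1`, `m ≥ 3 s + 3`: false.  For `h ≥ 4`: `(h - 4)(j - 3) ≥ 0`: `m ≥ 3 h + 4 j - 12 = 2 (h + 2 j) + h - 12 ≥ 4 s + 8 + 4 - 12 = 4 s > 3 s + 2`: false.
    If `ρ + 1 + μ - p ≤ h`: `s + p + 1 ≤ ρ + j ≤ h - 1 - μ + p + j`, so `h + j ≥ s + 2 + μ ≥ M + 4`, but `(h - 3)(j - 3) ≥ 0`: `m + 9 ≥ 3 (h + j) ≥ 3 M + 12`: false.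
    So the minimum is `k` (`s - 1 - ρ ≥ j - 1 - p > j - 2 - p`): `p + k + 2 ≤ j`, and `ρ + k + 1 ≤ ρ + (j - 2 - p) + 1 ≤ s - 1`.  `c w y ∉ H1`: `no_coset` with `J = outK (c w) Y H1` (`ρ + k + 1 ≤ s`), `F = F1`.
    Some `x ∈ P0` has `δ x ∈ H1`: `μ - p ≥ (M + 2 - s) - (j - 2 - k) ≥ M + 4 - (h + j) > 0` (`k ≥ s - h`; `3 (h + j) ≤ m + 9 = 2 M + 9 < 3 M + 12`).  `coreA` (`2 h ≤ m`) for this `x`: `s + 1 ≤ h + #{z ∈ BB : c w z ∉ H1, c x z ∉ H1}`, `y` is not counted (`c x y = c y x ∈ H1`), so `s + 1 ≤ h + k`.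
    With `a = h - 3`, `b = j - 3` (`≥ 0`): `s + 3 + p ≤ h + j`, so `a + b ≥ s - 3 + p`, `m = a b + 3 (a + b) + 9 ≥ a b + 3 s + 3 p`, `m ≤ 3 s + 2`: `p = 0`, `a b ≤ 2`, `a + b = s - 3` (`a + b ≥ s - 2` gives `m ≥ 3 s + 3`), so `k = j - 2 = s + 1 - h`.
    `a = 0`: `h = 3`, `j = s`, `m = 3 s`, `k = s - 2`: second type.  `b = 0`: `j = 3`, `h = s`, `m = 3 s`, `k = 1`: third type.  `a = b = 1`: `m = 16`, `s = 5`, `h = 4`, `k = 2`: fourth type.  `a b = 2`: `m = 20`, `s = 6`: excluded (`h20`).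
In all cases `p = 0`, so `c y x ∈ H1` for all `x ∈ P0` (`δ x = - c y x`).
-/

set_option autoImplicit false

namespace ZS44129
namespace M3

open Finset E W

variable {V : Type} [Fintype V] [DecidableEq V] {m : ℕ} {c : V → V → ZMod m} {s M : ℕ} {w : V}

private theorem per_wsY {y x : V} (hx : x ∈ (BB c w).erase y) : c w x ≠ 0 :=
  (Finset.mem_filter.1 (Finset.mem_of_mem_erase hx)).2

private theorem per_wsX {y x : V} (hx : x ∈ XK c w y) : c w x = 0 ∧ c y x + c y x ≠ 0 :=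
  ⟨(mem_AA'.1 (mem_XK.1 hx).1).2, (mem_XK.1 hx).2⟩

private theorem per_dltY {y x : V} (hx : x ∈ (BB c w).erase y) : dlt c w y x = c w x := by
  unfold dlt
  rw [if_neg (per_wsY hx)]

private theorem per_dltX {y x : V} (hx : x ∈ XK c w y) : dlt c w y x = - c y x := by
  unfold dlt
  rw [if_pos (per_wsX hx).1]

private theorem per_outK_Y (y : V) (H : AddSubgroup (ZMod m)) :
    outK (dlt c w y) ((BB c w).erase y) H = outK (c w) ((BB c w).erase y) H := by
  ext x
  rw [mem_outK, mem_outK]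
  constructor
  · rintro ⟨h1, h2⟩
    rw [per_dltY h1] at h2
    exact ⟨h1, h2⟩
  · rintro ⟨h1, h2⟩
    rw [← per_dltY h1] at h2
    exact ⟨h1, h2⟩

private theorem per_out_erase (y : V) (H : AddSubgroup (ZMod m)) :
    (outK (c w) (BB c w) H).card ≤ (outK (c w) ((BB c w).erase y) H).card + 1 := by
  have h1 : outK (c w) (BB c w) H ⊆ insert y (outK (c w) ((BB c w).erase y) H) := by
    intro x hx
    rw [mem_outK] at hx
    rw [mem_insert, mem_outK, mem_erase]
    by_cases h : x = y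
    · left; exact h
    · right; exact ⟨⟨h, hx.1⟩, hx.2⟩
  exact le_trans (card_le_card h1) (card_insert_le _ _)

/-- the data of a periodic cube. -/
private theorem per_dat [NeZero m] (h : EW c s M w) {y : V} (hy : y ∈ BB c w) (J0 P0 : Finset V)
    (hJ0 : J0 ⊆ (BB c w).erase y) (hJ0c : J0.card + 1 = s) (hP0 : P0 ⊆ XK c w y)
    (hP0c : P0.card + (BB c w).card ≤ m) (h2 : M + 2 ≤ P0.card + s)
    (hper : ¬ Aper (cube (dlt c w y) (J0 ∪ P0))) :
    ∃ (H1 : AddSubgroup (ZMod m)) (F1 : Finset V), 3 ≤ Nat.card H1 ∧ 2 ≤ H1.index ∧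
      Nat.card H1 * H1.index = m ∧
      F1 ⊆ P0 ∪ (BB c w).erase y ∧ (F1 ∩ (BB c w).erase y).card + 1 ≤ s ∧
      (∀ i ∈ F1, dlt c w y i ∈ H1) ∧ Gen (dlt c w y) F1 ⊥ H1 ∧
      ((outK (dlt c w y) P0 H1).card +
        min (s - 1 - (F1 ∩ (BB c w).erase y).card) (outK (c w) ((BB c w).erase y) H1).card + 2 ≤ H1.index) ∧
      (2 * ((F1 ∩ (BB c w).erase y).card + 1) ≤ Nat.card H1 ∨
        (F1 ∩ (BB c w).erase y).card + 1 + (inK (dlt c w y) P0 H1).card ≤ Nat.card H1) ∧
      s ≤ Nat.card H1 + (outK (c w) ((BB c w).erase y) H1).card := by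
  have hs5 := h.s5
  have hM := h.hM
  have hPX : P0 ⊆ X0 c w y := by
    intro x hx
    have h3 := mem_XK.1 (hP0 hx)
    refine Finset.mem_filter.2 ⟨h3.1, ?_⟩
    intro h4
    apply h3.2
    rw [h4, add_zero]
  have hPY : Disjoint P0 ((BB c w).erase y) := by
    rw [Finset.disjoint_left]
    intro x hx hx2
    exact per_wsY hx2 (per_wsX (hP0 hx)).1
  have hdK : ∀ i ∈ P0 ∪ (BB c w).erase y, dlt c w y i + dlt c w y i ≠ 0 := by
    intro i hi
    rcases mem_union.1 hi with h1 | h1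
    · rw [per_dltX (hP0 h1)]
      intro h3
      apply (per_wsX (hP0 h1)).2
      have h4 : c y i + c y i = - (- c y i + - c y i) := by ring
      rw [h4, h3, neg_zero]
    · rw [per_dltY h1]
      exact h.kb i (Finset.mem_of_mem_erase h1)
  have hdn : ∀ i ∈ P0 ∪ (BB c w).erase y, dlt c w y i ≠ 0 := by
    intro i hi h3
    apply hdK i hi
    rw [h3, add_zero]
  have hJP : Disjoint J0 P0 := (hPY.mono_right hJ0).symm
  have hF0 : J0 ∪ P0 ⊆ P0 ∪ (BB c w).erase y :=
    union_subset (hJ0.trans subset_union_right) subset_union_left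
  have hF0r : ((J0 ∪ P0) ∩ (BB c w).erase y).card ≤ s - 1 := by
    have h1 : (J0 ∪ P0) ∩ (BB c w).erase y ⊆ J0 := by
      intro x hx
      rw [mem_inter, mem_union] at hx
      rcases hx.1 with h3 | h3
      · exact h3
      · exact absurd hx.2 (Finset.disjoint_left.1 hPY h3)
    have h3 := card_le_card h1
    omega
  have hF0c : m + 1 ≤ 2 * (J0 ∪ P0).card := by
    rw [card_union_of_disjoint hJP]
    omega
  obtain ⟨H1, F1, hb, ht, hF1, hF1r, hF1m, hG, hF1c, hineq, hmin⟩ :=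
    lemPP P0 ((BB c w).erase y) hPY (dlt c w y) hdn (s - 1)
      (fun F hF hFr => no_top h.toWS0 hy P0 hPX hP0c F hF (by omega)) (J0 ∪ P0) hF0 hF0r hF0c hper
  have hcm : Nat.card H1 * H1.index = m := by
    have h1 := H1.card_mul_index
    rwa [Nat.card_zmod] at h1
  have hm0 : 0 < m := NeZero.pos m
  have hc1 : Nat.card H1 ≠ 1 := by
    intro h1
    exact hb (AddSubgroup.card_eq_one.1 h1)
  have hc0 : Nat.card H1 ≠ 0 := by
    intro h1
    rw [h1, zero_mul] at hcm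
    omega
  have hi1 : H1.index ≠ 1 := by
    intro h1
    exact ht (AddSubgroup.index_eq_one.1 h1)
  have hi0 : H1.index ≠ 0 := by
    intro h1
    rw [h1, mul_zero] at hcm
    omega
  have hc2 : Nat.card H1 ≠ 2 := by
    intro h1
    have h3 : F1 = ∅ := by
      rw [Finset.eq_empty_iff_forall_notMem]
      intro i hi
      exact hdK i (hF1 hi) ((mem_of_card2 hM H1 h1 _).1 (hF1m i hi))
    rw [h3] at hG
    apply hb
    rw [eq_bot_iff]
    intro x hx
    obtain ⟨g, hg, hxg⟩ := hG x hx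
    obtain ⟨T, hT, hTs⟩ := mem_cube.1 hg
    rw [Finset.subset_empty.1 hT, Finset.sum_empty] at hTs
    rw [← hTs, sub_zero] at hxg
    exact hxg
  have hj2 : 2 ≤ H1.index := by omega
  rw [per_outK_Y] at hineq
  have hineq2 : (outK (dlt c w y) P0 H1).card +
      min (s - 1 - (F1 ∩ (BB c w).erase y).card) (outK (c w) ((BB c w).erase y) H1).card + 2 ≤
      H1.index := by
    have h1 := le_trans hineq (le_of_eq hcm.symm)
    rw [mul_comm (Nat.card H1) H1.index] at h1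
    exact Nat.le_of_mul_le_mul_right h1 (by omega)
  have hcw : s + 1 ≤ Nat.card H1 + (outK (c w) (BB c w) H1).card := by
    apply coset_w h.toWS0 H1
    have : Nat.card H1 * 2 ≤ Nat.card H1 * H1.index := Nat.mul_le_mul_left _ hj2
    omega
  have hoe := per_out_erase (c := c) (w := w) y H1
  obtain ⟨F, hFs, hFm, hFG, hFc, hFY, hFalt⟩ :=
    rho_bd P0 ((BB c w).erase y) hPY (dlt c w y) (fun i hi => hdn i (mem_union_left _ hi)) H1 F1
      hF1 hF1m hG
  have hFle := card_le_card hFY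
  have hFge := hmin F hFs (by omega) hFm hFG hFc
  have hFeq : (F ∩ (BB c w).erase y).card = (F1 ∩ (BB c w).erase y).card := le_antisymm hFle hFge
  rw [hFeq] at hFalt
  exact ⟨H1, F1, by omega, hj2, hcm, hF1, by omega, hF1m, hG, hineq2, hFalt, by omega⟩

theorem per_even [NeZero m] (h : EW c s M w) {y : V} (hy : y ∈ BB c w) (J0 P0 : Finset V)
    (hJ0 : J0 ⊆ (BB c w).erase y) (hJ0c : J0.card + 1 = s) (hP0 : P0 ⊆ XK c w y)
    (hP0c : P0.card + (BB c w).card ≤ m) (h2 : M + 2 ≤ P0.card + s)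
    (hper : ¬ Aper (cube (dlt c w y) (J0 ∪ P0))) :
    ∃ H : AddSubgroup (ZMod m), c w y ∉ H ∧ (∀ x ∈ P0, c y x ∈ H) ∧ PT c s w y H := by
  obtain ⟨H1, F1, hh3, hj2, hcm, hF1, hF1r, hF1m, hG, hineq, halt, hsk⟩ :=
    per_dat h hy J0 P0 hJ0 hJ0c hP0 hP0c h2 hper
  have hs5 := h.s5
  have hM := h.hM
  have hm1 := h.m1
  have hm2 := h.m2
  have hPX : P0 ⊆ X0 c w y := by
    intro x hx
    have h3 := mem_XK.1 (hP0 hx)
    refine Finset.mem_filter.2 ⟨h3.1, ?_⟩
    intro h4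
    apply h3.2
    rw [h4, add_zero]
  have hpm := inK_add_outK (dlt c w y) P0 H1
  set ρ := (F1 ∩ (BB c w).erase y).card with hρ
  set p := (outK (dlt c w y) P0 H1).card with hp
  set q := (inK (dlt c w y) P0 H1).card with hq
  set k := (outK (c w) ((BB c w).erase y) H1).card with hk
  set n := Nat.card H1 with hn
  set j := H1.index with hj
  -- all of P0 in H1 if p = 0
  have hPin : p = 0 → ∀ x ∈ P0, c y x ∈ H1 := by
    intro hp0 x hx
    by_contra h3
    have h4 : x ∈ outK (dlt c w y) P0 H1 := by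
      refine mem_outK.2 ⟨hx, ?_⟩
      rw [per_dltX (hP0 hx)]
      intro h5
      exact h3 (by simpa using H1.neg_mem h5)
    rw [card_eq_zero.1 hp0] at h4
    exact absurd h4 (notMem_empty x)
  -- c w y is outside
  have hout : ρ + k + 1 ≤ s → c w y ∉ H1 := by
    intro hle hin
    have hdis : Disjoint (outK (c w) ((BB c w).erase y) H1) F1 := by
      rw [Finset.disjoint_left]
      intro x hx hx2
      have h3 := mem_outK.1 hx
      apply h3.2
      have h4 := hF1m x hx2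
      rwa [per_dltY h3.1] at h4
    refine no_coset h.toWS0 hy P0 hPX hP0c F1 hF1 (outK (c w) ((BB c w).erase y) H1)
      (outK_sub _ _ _) hdis hle H1 hG ?_
    apply H1.add_mem hin
    apply AddSubgroup.sum_mem
    intro b hb
    rw [mem_sdiff] at hb
    by_contra h3
    exact hb.2 (mem_outK.2 ⟨hb.1, h3⟩)
  by_cases hj3 : j = 2
  · -- index 2
    rw [hj3] at hcm hineq
    have hρ2 : ρ + 2 ≤ s := by
      rcases halt with h3 | h3
      · omega
      · omega
    have hk0 : k = 0 := by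
      rcases Nat.le_total (s - 1 - ρ) k with h3 | h3
      · rw [min_eq_left h3] at hineq
        omega
      · rw [min_eq_right h3] at hineq
        omega
    have hp0 : p = 0 := by omega
    refine ⟨H1, hout (by omega), hPin hp0, Or.inl ⟨hj3, ?_⟩⟩
    intro b hb
    by_contra h3
    have h4 : b ∈ outK (c w) ((BB c w).erase y) H1 := mem_outK.2 ⟨hb, h3⟩
    rw [card_eq_zero.1 hk0] at h4
    exact absurd h4 (notMem_empty b)
  · obtain ⟨a, ha⟩ : ∃ a, n = a + 3 := ⟨n - 3, by omega⟩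
    obtain ⟨b, hb⟩ : ∃ b, j = b + 3 := ⟨j - 3, by omega⟩
    rw [ha, hb] at hcm
    have hab : a * b + 3 * a + 3 * b + 9 = m := by
      rw [← hcm]; ring
    have hab0 : 0 ≤ a * b := Nat.zero_le _
    rw [hb] at hineq
    rw [ha] at halt hsk
    -- the claim
    have hclaim : ρ + (b + 3) ≤ s + p := by
      by_contra hcl
      push Not at hcl
      rcases halt with h3 | h3
      · rcases Nat.eq_zero_or_pos a with h4 | h4
        · subst h4
          omega
        · obtain ⟨a', ha'⟩ : ∃ a', a = a' + 1 := ⟨a - 1, by omega⟩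
          subst ha'
          have h5 : (a' + 1) * b = a' * b + b := by ring
          have h6 : 0 ≤ a' * b := Nat.zero_le _
          rw [h5] at hab
          omega
      · omega
    have hmin : p + k + 2 ≤ b + 3 := by
      rcases Nat.le_total (s - 1 - ρ) k with h3 | h3
      · rw [min_eq_left h3] at hineq
        omega
      · rwa [min_eq_right h3] at hineq
    have hcwy : c w y ∉ H1 := hout (by omega)
    have hqpos : 0 < q := by omega
    obtain ⟨x, hx⟩ : (inK (dlt c w y) P0 H1).Nonempty := card_pos.1 hqpos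
    have hx1 := mem_inK.1 hx
    have hyx : c x y ∈ H1 := by
      have h4 := hx1.2
      rw [per_dltX (hP0 hx1.1)] at h4
      rw [h.sym]
      simpa using H1.neg_mem h4
    have hxA : x ∈ AA c w := (mem_XK.1 (hP0 hx1.1)).1
    have hcore := coreA h.toWS0 H1 (by rw [← hn, ha]; omega) hxA
    have hsub : outK (fun z => c x z) (outK (c w) (BB c w) H1) H1 ⊆
        outK (c w) ((BB c w).erase y) H1 := by
      intro z hz
      have h4 := mem_outK.1 hz
      have h5 := mem_outK.1 h4.1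
      refine mem_outK.2 ⟨mem_erase.2 ⟨?_, h5.1⟩, h5.2⟩
      rintro rfl
      exact h4.2 hyx
    have hsk2 : s + 1 ≤ a + 3 + k := by
      have h4 := card_le_card hsub
      rw [← hk] at h4
      rw [← hn, ha] at hcore
      omega
    have hp0 : p = 0 := by omega
    have hsum : a + b = s - 3 := by omega
    have hkk : k + (a + 3) = s + 1 := by omega
    refine ⟨H1, hcwy, hPin hp0, ?_⟩
    rcases Nat.eq_zero_or_pos a with h4 | h4
    · subst h4
      right; left
      refine ⟨by omega, ?_, by omega⟩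
      rw [← hn, ha]
    · rcases Nat.eq_zero_or_pos b with h5 | h5
      · subst h5
        right; right; left
        refine ⟨by omega, ?_, by omega⟩
        rw [← hn, ha]
        omega
      · have h6 : a * b ≤ 2 := by omega
        have h7 : a ≤ 2 := by
          by_contra h8
          have h9 : 3 * 1 ≤ a * b := Nat.mul_le_mul (by omega) h5
          omega
        have h8 : b ≤ 2 := by
          by_contra h8
          have h9 : 1 * 3 ≤ a * b := Nat.mul_le_mul h4 (by omega)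
          omega
        have h20 := h.h20
        interval_cases a <;> interval_cases b
        · right; right; right
          refine ⟨by omega, by omega, ?_, by omega⟩
          rw [← hn, ha]
        · omega
        · omega
        · omega

end M3
end ZS44129
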